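import Pool.Agent.CvS.SysD

/-!
# Package CvS-SysC: the Chinese remainder theorem for systems

* `sn_mod`: `m ∣ sval (c l) z` depends only on `z` modulo `m` (`ZMod.natCast_eq_zero_iff`, casts).
* `sn_mul`: `SN (a * b) c = SN a c * SN b c` for coprime `a`, `b` (bijection `z ↦ (z mod a, z mod b)`, coordinatewise
  `Nat.chineseRemainder`; `a * b ∣ s` iff `a ∣ s` and `b ∣ s`). Compare `PtC/Crt.lean` (`crt_sqf`, two unknowns).
* `sn_one`: `SN 1 c = 1`.
* `sn_sqf`: for squarefree `m` the product over the prime factors (`Nat.recOnMul`-like, strong induction with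
  `m = p * m'`, as in `PtC.crt_sqf`).
* `sn_le`: at most `m ^ n`.
-/

set_option autoImplicit false

noncomputable section

namespace Pool.Agent.CvS

open Finset Polynomial

variable {n d r : ℕ} (c : Fin r → (Fin n → Fin (d + 1)) → ℕ)

private theorem sval_modEq (m : ℕ) (e : (Fin n → Fin (d + 1)) → ℕ) {z z' : Fin n → ℕ}
    (h : ∀ i, z i ≡ z' i [MOD m]) : sval e z ≡ sval e z' [MOD m] := by
  rw [← ZMod.natCast_eq_natCast_iff]
  have h1 : ∀ i, (z i : ZMod m) = (z' i : ZMod m) := fun i =>
    (ZMod.natCast_eq_natCast_iff _ _ _).2 (h i)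
  unfold sval
  push_cast
  simp only [h1]

private theorem sval_dvd (m : ℕ) (e : (Fin n → Fin (d + 1)) → ℕ) (z : Fin n → ℕ) :
    m ∣ sval e (fun i => z i % m) ↔ m ∣ sval e z :=
  (sval_modEq m e (z := fun i => z i % m) (z' := z) fun _ => Nat.mod_modEq _ _).dvd_iff dvd_rfl

theorem sn_one : SN 1 c = 1 := by
  unfold SN
  rw [card_eq_one]
  refine ⟨fun _ => 0, ?_⟩
  ext z
  rw [mem_filter, Fintype.mem_piFinset, mem_singleton]
  constructor
  · rintro ⟨h, -⟩
    funext i
    exact Nat.lt_one_iff.1 (mem_range.1 (h i))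
  · rintro rfl
    exact ⟨fun _ => mem_range.2 Nat.one_pos, fun _ => one_dvd _⟩

private theorem sn_mul_pos {a b : ℕ} (ha : 0 < a) (hb : 0 < b) (hab : Nat.Coprime a b) :
    SN (a * b) c = SN a c * SN b c := by
  unfold SN
  rw [← Finset.card_product]
  refine Finset.card_bij (fun z _ => ((fun i => z i % a), (fun i => z i % b))) ?_ ?_ ?_
  · intro z hz
    rw [mem_filter] at hz
    obtain ⟨-, hR⟩ := hz
    rw [mem_product, mem_filter, mem_filter, Fintype.mem_piFinset, Fintype.mem_piFinset]
    exact ⟨⟨fun i => mem_range.2 (Nat.mod_lt _ ha),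
        fun l => (sval_dvd a (c l) z).2 ((dvd_mul_right a b).trans (hR l))⟩,
      ⟨fun i => mem_range.2 (Nat.mod_lt _ hb),
        fun l => (sval_dvd b (c l) z).2 ((dvd_mul_left b a).trans (hR l))⟩⟩
  · intro z hz w hw h
    rw [mem_filter, Fintype.mem_piFinset] at hz hw
    rw [Prod.mk.injEq] at h
    obtain ⟨e1, e2⟩ := h
    funext i
    have f1 : z i ≡ w i [MOD a * b] :=
      (Nat.modEq_and_modEq_iff_modEq_mul hab).1 ⟨congrFun e1 i, congrFun e2 i⟩
    exact f1.eq_of_lt_of_lt (mem_range.1 (hz.1 i)) (mem_range.1 (hw.1 i))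
  · rintro ⟨x, y⟩ hz
    rw [mem_product, mem_filter, mem_filter, Fintype.mem_piFinset, Fintype.mem_piFinset] at hz
    obtain ⟨⟨hx, rx⟩, ⟨hy, ry⟩⟩ := hz
    have key : ∀ i, ∃ u, u < a * b ∧ u % a = x i ∧ u % b = y i := by
      intro i
      have kx := (Nat.chineseRemainder hab (x i) (y i)).2
      have lx := Nat.chineseRemainder_lt_mul hab (x i) (y i) ha.ne' hb.ne'
      refine ⟨_, lx, ?_, ?_⟩
      · rw [kx.1, Nat.mod_eq_of_lt (mem_range.1 (hx i))]
      · rw [kx.2, Nat.mod_eq_of_lt (mem_range.1 (hy i))]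
    choose u hu1 hu2 hu3 using key
    have e1 : (fun i => u i % a) = x := funext hu2
    have e2 : (fun i => u i % b) = y := funext hu3
    refine ⟨u, ?_, ?_⟩
    · rw [mem_filter, Fintype.mem_piFinset]
      refine ⟨fun i => mem_range.2 (hu1 i), fun l => ?_⟩
      refine Nat.Coprime.mul_dvd_of_dvd_of_dvd hab ?_ ?_
      · rw [← sval_dvd a (c l) u, e1]
        exact rx l
      · rw [← sval_dvd b (c l) u, e2]
        exact ry l
    · rw [e1, e2]

theorem sn_mul {a b : ℕ} (h : Nat.Coprime a b) : SN (a * b) c = SN a c * SN b c := by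
  rcases Nat.eq_zero_or_pos a with ha | ha
  · subst ha
    rw [Nat.coprime_zero_left] at h
    subst h
    rw [mul_one, sn_one, mul_one]
  rcases Nat.eq_zero_or_pos b with hb | hb
  · subst hb
    rw [Nat.coprime_zero_right] at h
    subst h
    rw [one_mul, sn_one, one_mul]
  exact sn_mul_pos c ha hb h

theorem sn_sqf {m : ℕ} (hm : Squarefree m) : SN m c = ∏ p ∈ m.primeFactors, SN p c := by
  induction m using Nat.strong_induction_on with
  | _ m ih =>
    have hm0 : m ≠ 0 := hm.ne_zero
    rcases Nat.eq_or_lt_of_le (Nat.one_le_iff_ne_zero.2 hm0) with h | h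
    · subst h
      rw [Nat.primeFactors_one, prod_empty, sn_one]
    · have hp : (m.minFac).Prime := Nat.minFac_prime h.ne'
      obtain ⟨k, hk⟩ := m.minFac_dvd
      have hco : Nat.Coprime m.minFac k := by
        rw [hk] at hm
        exact Nat.coprime_of_squarefree_mul hm
      have hkm : Squarefree k := by
        refine hm.squarefree_of_dvd ?_
        rw [hk]
        exact dvd_mul_left _ _
      have hlt : k < m := by
        have hk0 : 0 < k := Nat.pos_of_ne_zero hkm.ne_zero
        conv_rhs => rw [hk]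
        have := hp.two_le
        nlinarith
      have e1 := sn_mul c hco
      rw [← hk] at e1
      rw [e1, ih k hlt hkm]
      conv_rhs => rw [hk]
      rw [hco.primeFactors_mul, prod_union hco.disjoint_primeFactors, hp.primeFactors,
        prod_singleton]

theorem sn_le (m : ℕ) : SN m c ≤ m ^ n := by
  unfold SN
  refine (card_filter_le _ _).trans ?_
  rw [Fintype.card_piFinset]
  simp

end Pool.Agent.CvS
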