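import Pool.Agent.CvS.Step
import Pool.Agent.CvS.SysC

/-!
# Package CvS-Sys: systems of polynomial congruences modulo squarefree numbers

* `sys_prd`: the relation `∀ l, ∑ e, u_(l,e) ∏ z_i ^ e_i = 0` on `(z; u)`, `u : Fin r × (Fin n → Fin (d + 1)) → K`, is `PRD`
  (`PRD.all`, `PRD.eq`, `PRF.sum`, `PRF.prod`, `PRF.pow`). `sys_prime`: `CH n` for it; for a prime `p`, `SN p c` is the number of
  the solutions in `(ZMod p) ^ n` (bijection `ZMod.val`, `ZMod.natCast_eq_zero_iff`).
* `sys_sqf`: `f v` is the product over the prime factors `p` of `m v` of `min (N p (c v)) (p ^ n)` if `m v` is squarefree, else `0`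
  (`PtC.dfun_prodPF` with the bound `(m v) ^ n`, as in `CvD/Fin.lean` or `PtC/Final.lean`), `sn_sqf`.
-/

set_option autoImplicit false

noncomputable section

namespace Pool.Agent.CvS

open Finset Polynomial Pool.Agent.PRc Pool.Agent.Grz

private theorem sval_cast_Sys {n d : ℕ} (K : Type) [CommSemiring K]
    (c : (Fin n → Fin (d + 1)) → ℕ) (z : Fin n → ℕ) :
    ((sval c z : ℕ) : K) = sval c (fun i => (z i : K)) := by
  unfold sval
  simp only [Nat.cast_sum, Nat.cast_mul, Nat.cast_prod, Nat.cast_pow, Nat.cast_id]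

private theorem sn_card_Sys {n d r : ℕ} (p : ℕ) [Fact p.Prime]
    (c : Fin r → (Fin n → Fin (d + 1)) → ℕ) : Nat.card (SZ (ZMod p) c) = SN p c := by
  classical
  have hp : 0 < p := (Fact.out : p.Prime).pos
  have hS : SZ (ZMod p) c = ↑(({z ∈ Fintype.piFinset fun _ : Fin n => range p |
      ∀ l, p ∣ sval (c l) z} : Finset (Fin n → ℕ)).image fun z i => (z i : ZMod p)) := by
    ext w
    simp only [Finset.coe_image, Set.mem_image, Finset.mem_coe, Finset.mem_filter,
      Fintype.mem_piFinset, Finset.mem_range]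
    constructor
    · intro hw
      refine ⟨fun i => (w i).val, ⟨fun i => ZMod.val_lt _, fun l => ?_⟩, ?_⟩
      · rw [← ZMod.natCast_eq_zero_iff, sval_cast_Sys]
        simp only [ZMod.natCast_val, ZMod.cast_id', id_eq]
        exact hw l
      · funext i
        simp only [ZMod.natCast_val, ZMod.cast_id', id_eq]
    · rintro ⟨z, ⟨_, h2⟩, rfl⟩ l
      rw [← sval_cast_Sys, ZMod.natCast_eq_zero_iff]
      exact h2 l
  rw [Nat.card_coe_set_eq, hS, Set.ncard_coe_finset, Finset.card_image_of_injOn]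
  · rfl
  · intro z hz z' hz' h
    simp only [Finset.mem_coe, Finset.mem_filter, Fintype.mem_piFinset, Finset.mem_range] at hz hz'
    funext i
    have h1 : ((z i : ℕ) : ZMod p) = (z' i : ZMod p) := congrFun h i
    rw [ZMod.natCast_eq_natCast_iff] at h1
    have h2 : z i % p = z' i % p := h1
    rwa [Nat.mod_eq_of_lt (hz.1 i), Nat.mod_eq_of_lt (hz'.1 i)] at h2

/-- the system as a relation on all fields -/
private def XS (n d r : ℕ) : FR (Fin n ⊕ (Fin r × (Fin n → Fin (d + 1)))) :=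
  fun _ _ x => ∀ l : Fin r, ∑ e : Fin n → Fin (d + 1), x (Sum.inr (l, e)) *
    ∏ i, x (Sum.inl i) ^ (e i : ℕ) = 0

private theorem xs_prd (n d r : ℕ) : PRD (XS n d r) := by
  have h : PRD (fun (K : Type) [Field K] (x : Fin n ⊕ (Fin r × (Fin n → Fin (d + 1))) → K) =>
      ∀ l ∈ (Finset.univ : Finset (Fin r)), ∑ e : Fin n → Fin (d + 1), x (Sum.inr (l, e)) *
        ∏ i, x (Sum.inl i) ^ (e i : ℕ) = 0) := by
    refine PRD.all Finset.univ (P := fun (l : Fin r) (K : Type) [Field K]
      (x : Fin n ⊕ (Fin r × (Fin n → Fin (d + 1))) → K) =>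
      ∑ e : Fin n → Fin (d + 1), x (Sum.inr (l, e)) * ∏ i, x (Sum.inl i) ^ (e i : ℕ) = 0)
      fun l _ => ?_
    refine PRD.eq ?_ PRF.zero
    refine PRF.sum Finset.univ (F := fun (e : Fin n → Fin (d + 1)) (K : Type) [Field K]
      (x : Fin n ⊕ (Fin r × (Fin n → Fin (d + 1))) → K) =>
      x (Sum.inr (l, e)) * ∏ i, x (Sum.inl i) ^ (e i : ℕ)) fun e _ => ?_
    refine PRF.mul (PRF.var _) ?_
    exact PRF.prod Finset.univ (F := fun (i : Fin n) (K : Type) [Field K]
      (x : Fin n ⊕ (Fin r × (Fin n → Fin (d + 1))) → K) => x (Sum.inl i) ^ (e i : ℕ))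
      fun i _ => (PRF.var _).pow _
  refine h.congr fun K _ x => ?_
  unfold XS
  simp only [Finset.mem_univ, forall_true_left]

private theorem sqf_Sys {n : ℕ} {f : (Fin n → ℕ) → ℕ} (hf : DFun n f) :
    Delta0 n (fun v => Squarefree (f v)) := by
  have h1 : Delta0 (n + 1) (fun w => w 0 * w 0 ∣ f (fun i => w i.succ) → w 0 = 1) :=
    (ECD.delta_dvd ((DFun.proj 0).mul (DFun.proj 0)) hf.weak).imp
      (Delta0.eqFun (DFun.proj 0) (DFun.const 1))
  refine ((Delta0.ltFun (DFun.const 0) hf).and (Delta0.ballFun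
    (P := fun x v => x * x ∣ f v → x = 1) hf h1)).of_iff fun v => ?_
  constructor
  · intro h
    exact ⟨Nat.pos_of_ne_zero h.ne_zero, fun x _ hx => Nat.isUnit_iff.1 (h x hx)⟩
  · rintro ⟨h0, h⟩ x hx
    refine Nat.isUnit_iff.2 (h x ?_ hx)
    have h2 : x * x ≤ f v := Nat.le_of_dvd h0 hx
    exact (Nat.le_mul_self x).trans h2

theorem sys_prime (hP : PlaneHyp) (n d r : ℕ) :
    ∃ N : ℕ → (Fin r × (Fin n → Fin (d + 1)) → ℕ) → ℕ, DC N ∧
      ∀ (p : ℕ) (c : Fin r → (Fin n → Fin (d + 1)) → ℕ), Cv p c →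
        N p (fun i => c i.1 i.2) = SN p c := by
  obtain ⟨N, hN, h⟩ := ch_all hP n (X := XS n d r) (xs_prd n d r)
  refine ⟨N, hN, fun p c hc => ?_⟩
  obtain ⟨hp, hd⟩ := hc
  haveI := Fact.mk hp
  have h1 : ∀ (K : Type) [Field K], Pt (XS n d r) K (cst K fun i => c i.1 i.2) = SZ K c :=
    fun K _ => rfl
  have h2 := h p (fun i => c i.1 i.2) (by rw [h1]; exact hd)
  rw [h2, h1, sn_card_Sys]

theorem sys_sqf (hP : PlaneHyp) {n d r k : ℕ} {m : (Fin k → ℕ) → ℕ}
    {c : Fin r → (Fin n → Fin (d + 1)) → (Fin k → ℕ) → ℕ} (hm : DFun k m)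
    (hc : ∀ l e, DFun k (c l e)) : ∃ f : (Fin k → ℕ) → ℕ, DFun k f ∧ ∀ v, Squarefree (m v) →
      (∀ p, p.Prime → p ∣ m v → Cv p fun l e => c l e v) →
        f v = SN (m v) fun l e => c l e v := by
  classical
  obtain ⟨N, hN, h⟩ := sys_prime hP n d r
  have hs : Delta0 k (fun v => Squarefree (m v)) := sqf_Sys hm
  have hm' : DFun k (fun v => if Squarefree (m v) then m v else 1) :=
    DFun.ite hs hm (DFun.const 1)
  have hg : DFun (k + 1) (fun w => (fun (q : ℕ) (v : Fin k → ℕ) =>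
      min (N q fun i => c i.1 i.2 v) (q ^ n)) (w 0) (fun i => w i.succ)) := by
    refine DFun.min ?_ (PTr.DFun.powConst (DFun.proj 0) n)
    exact hN (p := fun w => w 0) (a := fun i w => c i.1 i.2 (fun j => w j.succ)) (DFun.proj 0)
      fun i => (hc i.1 i.2).weak
  have hb : ∀ v : Fin k → ℕ, ∏ q ∈ (if Squarefree (m v) then m v else 1).primeFactors,
      min (N q fun i => c i.1 i.2 v) (q ^ n) ≤ (if Squarefree (m v) then m v else 1) ^ n := by
    intro v
    have h0 : (if Squarefree (m v) then m v else 1) ≠ 0 := by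
      split_ifs with h1
      · exact h1.ne_zero
      · exact one_ne_zero
    calc ∏ q ∈ (if Squarefree (m v) then m v else 1).primeFactors,
          min (N q fun i => c i.1 i.2 v) (q ^ n)
        ≤ ∏ q ∈ (if Squarefree (m v) then m v else 1).primeFactors, q ^ n :=
          Finset.prod_le_prod' fun q _ => min_le_right _ _
      _ = (∏ q ∈ (if Squarefree (m v) then m v else 1).primeFactors, q) ^ n :=
          Finset.prod_pow _ _ _
      _ ≤ (if Squarefree (m v) then m v else 1) ^ n :=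
          Nat.pow_le_pow_left (Nat.le_of_dvd (Nat.pos_of_ne_zero h0)
            (Nat.prod_primeFactors_dvd _)) n
  have h2 := PtC.dfun_prodPF (n := k) (m := fun v => if Squarefree (m v) then m v else 1)
    (B := fun v => (if Squarefree (m v) then m v else 1) ^ n) hg hm'
    (PTr.DFun.powConst hm' n) hb
  refine ⟨_, h2, fun v hv hC => ?_⟩
  show ∏ q ∈ (if Squarefree (m v) then m v else 1).primeFactors,
    min (N q fun i => c i.1 i.2 v) (q ^ n) = _
  rw [if_pos hv, sn_sqf (fun l e => c l e v) hv]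
  refine Finset.prod_congr rfl fun q hq => ?_
  have h3 := h q (fun l e => c l e v) (hC q (Nat.prime_of_mem_primeFactors hq)
    (Nat.dvd_of_mem_primeFactors hq))
  rw [h3]
  exact min_eq_left (sn_le _ q)

end Pool.Agent.CvS
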