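import Pool.Agent.PRc.Ex
import Pool.Agent.PRc.Gcd
import Pool.Agent.CvD.Hyp

/-!
# Sets of dimension at most one in any number of unknowns: definitions

Project ALL CURVES (`MP_a56640_lc`), second part. `X : FR (Fin n ⊕ ι)`, `PRD X`: a Boolean combination of
polynomial equations in `n` unknowns and parameters, for all fields at the same time.

* `Pt X K x`: the set of the solutions in `K ^ n` for the parameters `x`;
* `Dm1 K S`: any two coordinates are algebraically dependent on `S` (the dimension is at most one);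
* `DC N`: `N p a` is definable in `p` and the parameters `a`;
* `PlaneHyp`: numbers of solutions in the plane are definable; `CH n`: numbers of solutions of systems with `n`
  unknowns and solution sets of dimension at most one are definable.
-/

set_option autoImplicit false

noncomputable section

namespace Pool.Agent.CvS

open Polynomial Pool.Agent.PRc Pool.Agent.Grz

/-- the solutions in `K ^ n` for the parameters `x` -/
def Pt {ι : Type} {n : ℕ} (X : FR (Fin n ⊕ ι)) (K : Type) [Field K] (x : ι → K) :
    Set (Fin n → K) := {z | X K (Sum.elim z x)}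

/-- any two coordinates are algebraically dependent on `S` -/
def Dm1 {K : Type} [Field K] {n : ℕ} (S : Set (Fin n → K)) : Prop :=
  ∀ i j : Fin n, i < j → ∃ G : K[X][X], G ≠ 0 ∧ ∀ z ∈ S, G.evalEval (z i) (z j) = 0

/-- `N p a` is definable in `p` and the parameters -/
def DC {ι : Type} (N : ℕ → (ι → ℕ) → ℕ) : Prop :=
  ∀ {m : ℕ} {p : (Fin m → ℕ) → ℕ} {a : ι → (Fin m → ℕ) → ℕ}, DFun m p → (∀ i, DFun m (a i)) →
    DFun m (fun v => N (p v) fun i => a i v)

/-- the parameters in the field -/
def cst {ι : Type} (K : Type) [Field K] (a : ι → ℕ) : ι → K := fun i => (a i : K)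

/-- numbers of solutions in the plane are definable -/
def PlaneHyp : Prop := ∀ {ι : Type} [Finite ι] {R : FR (Fin 2 ⊕ ι)}, PRD R →
  ∃ N : ℕ → (ι → ℕ) → ℕ, DC N ∧ ∀ (p : ℕ) [Fact p.Prime] (a : ι → ℕ),
    N p a = Nat.card (Pt R (ZMod p) (cst (ZMod p) a))

/-- numbers of solutions of systems with `n` unknowns and solution sets of dimension at most one are
definable -/
def CH (n : ℕ) : Prop := ∀ {ι : Type} [Finite ι] {X : FR (Fin n ⊕ ι)}, PRD X →
  ∃ N : ℕ → (ι → ℕ) → ℕ, DC N ∧ ∀ (p : ℕ) [Fact p.Prime] (a : ι → ℕ),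
    Dm1 (Pt X (AlgebraicClosure (ZMod p)) (cst (AlgebraicClosure (ZMod p)) a)) →
      N p a = Nat.card (Pt X (ZMod p) (cst (ZMod p) a))

/-- the solutions with the first coordinate `b` -/
def Fb {K : Type} {n : ℕ} (S : Set (Fin (n + 1) → K)) (b : K) : Set (Fin n → K) :=
  {t | Fin.cons b t ∈ S}

end Pool.Agent.CvS
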