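import Pool.Agent.CvS.QE

/-!
# Package CvS-FinU: uniform finiteness

* `fin_unif`: `prd_pat`: let `B` be the sum over `a` of bounds for the degrees of `tp (T a) x` (`tp_pr`). For fixed
  `x` let `Z` be the set of the roots of the nonzero `tp (T a) x`, at most `B` elements (`K` is infinite and a
  domain). Outside `Z` the pattern is constant (`a ↦ tp (T a) x = 0`); if `R` holds for it then the
  complement of the set is contained in `Z`, otherwise the set is.
* `inf_pr`: the set `{t | P K (φ x, t)}` is infinite iff it has `B + 1` different elements: `qe` with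
  `κ = Fin (B + 1)` for the conjunction of the `P (x, t_i)` and `t_i ≠ t_j`.
* `fib_unif` (several coordinates): the set `S = {t : Fin n → K | P K (φ x, t)}` is finite iff all its projections
  `{s | ∃ t ∈ S, t j = s}` are; these are `PRD` in `(x, s)` by `qe` (for the field `K`, `φ = id`), so by `fin_unif`
  they are infinite (a `PRD` condition) or have at most `B` elements, and then `S` has at most `B ^ n`
  elements (`Set.ncard` of a subset of `Fintype.piFinset`).
-/

set_option autoImplicit false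

noncomputable section

namespace Pool.Agent.CvS

open Polynomial Pool.Agent.PRc Pool.Agent.Grz

variable {ι : Type}

/-- the roots of the nonzero polynomials of the family -/
private def zs {τ : ℕ} (T : Fin τ → MvPolynomial (ι ⊕ Unit) ℤ) {K : Type} [Field K] (x : ι → K) :
    Set K := {t : K | ∃ a, tp (T a) x ≠ 0 ∧ (tp (T a) x).eval t = 0}

private theorem zs_fin {τ : ℕ} (T : Fin τ → MvPolynomial (ι ⊕ Unit) ℤ) (D : Fin τ → ℕ)
    {K : Type} [Field K] (x : ι → K) (hD : ∀ a, (tp (T a) x).natDegree ≤ D a) :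
    (zs T x).Finite ∧ (zs T x).ncard ≤ ∑ a, D a := by
  classical
  have h1 : zs T x ⊆ ((Finset.univ.biUnion fun a => (tp (T a) x).roots.toFinset : Finset K) :
      Set K) := by
    rintro t ⟨a, ha, ht⟩
    rw [Finset.mem_coe, Finset.mem_biUnion]
    exact ⟨a, Finset.mem_univ a, by
      rw [Multiset.mem_toFinset, mem_roots ha]
      exact ht⟩
  refine ⟨(Finset.finite_toSet _).subset h1, ?_⟩
  refine (Set.ncard_le_ncard h1 (Finset.finite_toSet _)).trans ?_
  rw [Set.ncard_coe_finset]
  refine Finset.card_biUnion_le.trans (Finset.sum_le_sum fun a _ => ?_)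
  exact ((Multiset.toFinset_card_le _).trans (card_roots' _)).trans (hD a)

theorem fin_unif {P : FR (ι ⊕ Unit)} (hP : PRD P) : ∃ B : ℕ, ∀ (K : Type) [Field K] [Infinite K]
    (x : ι → K), ({t : K | P K (Sum.elim x fun _ => t)}.Finite ∧
        {t : K | P K (Sum.elim x fun _ => t)}.ncard ≤ B) ∨
      ({t : K | ¬ P K (Sum.elim x fun _ => t)}.Finite ∧
        {t : K | ¬ P K (Sum.elim x fun _ => t)}.ncard ≤ B) := by
  obtain ⟨τ, T, R, hR⟩ := prd_pat hP
  have hT : ∀ a, ∃ D : ℕ, ∀ (k : Type) [Field k] (x : ι → k), (tp (T a) x).natDegree ≤ D :=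
    fun a => (tp_pr (T a)).1
  choose D hD using hT
  refine ⟨∑ a, D a, fun K _ _ x => ?_⟩
  obtain ⟨hf, hc⟩ := zs_fin T D x fun a => hD a K x
  have key : ∀ t : K, t ∉ zs T x → (P K (Sum.elim x fun _ => t) ↔
      R (fun a => tp (T a) x = 0)) := by
    intro t ht
    rw [hR K]
    have e : (fun a => MvPolynomial.aeval (Sum.elim x fun _ => t) (T a) = 0) =
        (fun a => tp (T a) x = 0) := by
      funext a
      have h1 := tp_eval (RingHom.id K) (T a) x t
      rw [Polynomial.map_id] at h1
      have h2 : (Sum.elim (fun i => (RingHom.id K) (x i)) fun _ : Unit => t) =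
          Sum.elim x fun _ => t := rfl
      rw [h2] at h1
      rw [← h1]
      apply propext
      constructor
      · intro h3
        by_contra h4
        exact ht ⟨a, h4, h3⟩
      · intro h3
        rw [h3, eval_zero]
    rw [e]
  by_cases hRR : R (fun a => tp (T a) x = 0)
  · right
    have hs : {t : K | ¬ P K (Sum.elim x fun _ => t)} ⊆ zs T x := by
      intro t ht
      by_contra h
      exact ht ((key t h).mpr hRR)
    exact ⟨hf.subset hs, (Set.ncard_le_ncard hs hf).trans hc⟩
  · left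
    have hs : {t : K | P K (Sum.elim x fun _ => t)} ⊆ zs T x := by
      intro t ht
      by_contra h
      exact hRR ((key t h).mp ht)
    exact ⟨hf.subset hs, (Set.ncard_le_ncard hs hf).trans hc⟩

theorem inf_pr {P : FR (ι ⊕ Unit)} (hP : PRD P) : ∃ Q : FR ι, PRD Q ∧
    ∀ (k K : Type) [Field k] [Field K] [IsAlgClosed K] (φ : k →+* K) (x : ι → k),
      Q k x ↔ {t : K | P K (Sum.elim (fun i => φ (x i)) fun _ => t)}.Infinite := by
  obtain ⟨B, hB⟩ := fin_unif hP
  have h1 : PRD (ι := ι ⊕ Fin (B + 1)) (fun k _ y =>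
      (∀ i ∈ (Finset.univ : Finset (Fin (B + 1))),
        P k (fun j : ι ⊕ Unit => Sum.elim (fun l => y (Sum.inl l)) (fun _ => y (Sum.inr i)) j)) ∧
      ∀ q ∈ (Finset.univ.filter fun q : Fin (B + 1) × Fin (B + 1) => q.1 ≠ q.2),
        ¬ (y (Sum.inr q.1) = y (Sum.inr q.2))) := by
    refine PRD.and (PRD.all Finset.univ
      (P := fun (i : Fin (B + 1)) (k : Type) [Field k] (y : ι ⊕ Fin (B + 1) → k) =>
        P k (fun j : ι ⊕ Unit => Sum.elim (fun l => y (Sum.inl l)) (fun _ => y (Sum.inr i)) j))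
      fun i _ => ?_)
      (PRD.all _ (P := fun (q : Fin (B + 1) × Fin (B + 1)) (k : Type) [Field k]
        (y : ι ⊕ Fin (B + 1) → k) => ¬ (y (Sum.inr q.1) = y (Sum.inr q.2)))
        fun q _ => (PRD.eq (PRF.var (Sum.inr q.1)) (PRF.var (Sum.inr q.2))).not)
    refine PRD.comp hP (G := fun (j : ι ⊕ Unit) (k : Type) [Field k] (y : ι ⊕ Fin (B + 1) → k) =>
      Sum.elim (fun l => y (Sum.inl l)) (fun _ => y (Sum.inr i)) j) fun j => ?_
    rcases j with l | u
    · exact PRF.var (Sum.inl l)
    · exact PRF.var (Sum.inr i)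
  obtain ⟨Q, hQ, hq⟩ := qe h1
  refine ⟨Q, hQ, fun k K _ _ _ φ x => ?_⟩
  rw [hq k K φ x]
  set S : Set K := {t : K | P K (Sum.elim (fun i => φ (x i)) fun _ => t)} with hS
  constructor
  · rintro ⟨t, h2, h3⟩ hfin
    have h4 : Function.Injective t := by
      intro i j hij
      by_contra hne
      exact h3 (i, j) (Finset.mem_filter.mpr ⟨Finset.mem_univ _, hne⟩) hij
    have h5 : ∀ i, t i ∈ S := fun i => h2 i (Finset.mem_univ i)
    have h6 : B + 1 ≤ S.ncard := by
      have h7 : Set.range t ⊆ S := by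
        rintro _ ⟨i, rfl⟩
        exact h5 i
      have h8 := Set.ncard_le_ncard h7 hfin
      rw [← Set.image_univ, Set.ncard_image_of_injective _ h4, Set.ncard_univ, Nat.card_fin] at h8
      exact h8
    rcases hB K (fun i => φ (x i)) with ⟨_, h9⟩ | ⟨h9, _⟩
    · exact absurd (h6.trans h9) (by omega)
    · have h10 : (Set.univ : Set K).Finite := by
        refine (hfin.union h9).subset fun t _ => ?_
        by_cases h : P K (Sum.elim (fun i => φ (x i)) fun _ => t)
        · exact Or.inl h
        · exact Or.inr h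
      exact Set.infinite_univ h10
  · intro hinf
    let e := hinf.natEmbedding
    refine ⟨fun i => (e i : K), fun i _ => (e i).2, fun q hq1 h2 => ?_⟩
    have h3 : e (q.1 : ℕ) = e (q.2 : ℕ) := Subtype.ext h2
    exact (Finset.mem_filter.mp hq1).2 (Fin.ext (e.injective h3))

theorem fib_unif {n : ℕ} {P : FR (ι ⊕ Fin n)} (hP : PRD P) : ∃ (B : ℕ) (Q : FR ι), PRD Q ∧
    ∀ (k K : Type) [Field k] [Field K] [IsAlgClosed K] (φ : k →+* K) (x : ι → k),
      (Q k x ↔ {t : Fin n → K | P K (Sum.elim (fun i => φ (x i)) t)}.Infinite) ∧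
      (¬ Q k x → {t : Fin n → K | P K (Sum.elim (fun i => φ (x i)) t)}.ncard ≤ B) := by
  classical
  have h1 : ∀ j : Fin n, PRD (ι := (ι ⊕ Unit) ⊕ Fin n) (fun k _ y =>
      P k (fun i : ι ⊕ Fin n => Sum.elim (fun l => y (Sum.inl (Sum.inl l)))
        (fun m => y (Sum.inr m)) i) ∧ y (Sum.inr j) = y (Sum.inl (Sum.inr ()))) := by
    intro j
    refine PRD.and ?_ (PRD.eq (PRF.var (Sum.inr j)) (PRF.var (Sum.inl (Sum.inr ()))))
    refine PRD.comp hP (G := fun (i : ι ⊕ Fin n) (k : Type) [Field k]
      (y : (ι ⊕ Unit) ⊕ Fin n → k) => Sum.elim (fun l => y (Sum.inl (Sum.inl l)))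
        (fun m => y (Sum.inr m)) i) fun i => ?_
    rcases i with l | m
    · exact PRF.var (Sum.inl (Sum.inl l))
    · exact PRF.var (Sum.inr m)
  choose Q1 hQ1 hq1 using fun j => qe (h1 j)
  choose B hB using fun j => fin_unif (hQ1 j)
  choose Q2 hQ2 hq2 using fun j => inf_pr (hQ1 j)
  refine ⟨∏ j, B j, fun k _ x => ∃ j ∈ (Finset.univ : Finset (Fin n)), Q2 j k x,
    PRD.any Finset.univ (P := fun j => Q2 j) fun j _ => hQ2 j, fun k K _ _ _ φ x => ?_⟩
  set S : Set (Fin n → K) := {t : Fin n → K | P K (Sum.elim (fun i => φ (x i)) t)} with hS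
  have hproj : ∀ j, {s : K | Q1 j K (Sum.elim (fun i => φ (x i)) fun _ => s)} =
      (fun t : Fin n → K => t j) '' S := by
    intro j
    ext s
    rw [Set.mem_ofPred_eq, hq1 j K K (RingHom.id K)]
    constructor
    · rintro ⟨t, h2, h3⟩
      exact ⟨t, h2, h3⟩
    · rintro ⟨t, h2, h3⟩
      exact ⟨t, h2, h3⟩
  have hfin : (¬ ∃ j ∈ (Finset.univ : Finset (Fin n)), Q2 j k x) →
      S.Finite ∧ S.ncard ≤ ∏ j, B j := by
    intro hno
    have h2 : ∀ j, ((fun t : Fin n → K => t j) '' S).Finite ∧
        ((fun t : Fin n → K => t j) '' S).ncard ≤ B j := by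
      intro j
      have h3 : ¬ ((fun t : Fin n → K => t j) '' S).Infinite := by
        rw [← hproj j, ← hq2 j k K φ x]
        exact fun h => hno ⟨j, Finset.mem_univ j, h⟩
      rw [Set.not_infinite] at h3
      refine ⟨h3, ?_⟩
      rcases hB j K (fun i => φ (x i)) with ⟨_, h4⟩ | ⟨h4, _⟩
      · rw [← hproj j]
        exact h4
      · exfalso
        rw [← hproj j] at h3
        have h5 : (Set.univ : Set K).Finite := by
          refine (h3.union h4).subset fun t _ => ?_
          by_cases h : Q1 j K (Sum.elim (fun i => φ (x i)) fun _ => t)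
          · exact Or.inl h
          · exact Or.inr h
        exact Set.infinite_univ h5
    have h6 : S ⊆ ((Fintype.piFinset fun j => (h2 j).1.toFinset : Finset (Fin n → K)) :
        Set (Fin n → K)) := by
      intro t ht
      rw [Finset.mem_coe, Fintype.mem_piFinset]
      intro j
      rw [Set.Finite.mem_toFinset]
      exact ⟨t, ht, rfl⟩
    refine ⟨(Finset.finite_toSet _).subset h6, ?_⟩
    refine (Set.ncard_le_ncard h6 (Finset.finite_toSet _)).trans ?_
    rw [Set.ncard_coe_finset, Fintype.card_piFinset]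
    refine Finset.prod_le_prod' fun j _ => ?_
    rw [← Set.ncard_eq_toFinset_card _ (h2 j).1]
    exact (h2 j).2
  refine ⟨⟨?_, ?_⟩, fun hno => (hfin hno).2⟩
  · rintro ⟨j, _, hj⟩ hSf
    have h3 := (hq2 j k K φ x).mp hj
    rw [hproj j] at h3
    exact h3 (hSf.image _)
  · intro hinf
    by_contra hno
    exact hinf (hfin hno).1

end Pool.Agent.CvS
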