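import Pool.Agent.CvS.HomI

/-!
# Package CvS-Frb: unique solutions are rational

`K = AlgebraicClosure (ZMod p)`, `φ = algebraMap (ZMod p) K`, `frobenius K p` is a ring homomorphism which is the
identity on the image of `φ` (`ZMod.pow_card`, `map_pow`). `rat_of_pow`: if `s ^ p = s` in `K` then `s = φ r` for
some `r`: `X ^ p - X` has at most `p` roots in `K` and the `p` elements `φ r` are roots. `rat`: if `t` is the only
element of `S = {t | P K (φ x, t)}` (`P` in `PRD`) with `∑ φ(u_i) t_i = φ c`, then `t = φ ∘ t'`: the vector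
`s_i = t_i ^ p` is in `S` (`prd_hom` for the Frobenius homomorphism) and `∑ φ(u_i) s_i = (∑ φ(u_i) t_i) ^ p =
φ c`, so `s = t`.
-/

set_option autoImplicit false

noncomputable section

namespace Pool.Agent.CvS

open Polynomial Pool.Agent.PRc Pool.Agent.Grz

variable {ι : Type} {p : ℕ} [Fact p.Prime]

theorem rat_of_pow {s : AlgebraicClosure (ZMod p)} (h : s ^ p = s) :
    ∃ r : ZMod p, algebraMap (ZMod p) (AlgebraicClosure (ZMod p)) r = s := by
  have hs := (Subfield.mem_bot_iff_pow_eq_self (AlgebraicClosure (ZMod p)) p).2 h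
  rw [← ZMod.fieldRange_castHom_eq_bot p, RingHom.mem_fieldRange] at hs
  obtain ⟨r, hr⟩ := hs
  refine ⟨r, ?_⟩
  rw [← hr]
  exact congrFun (congrArg _ (Subsingleton.elim _ _)) r

theorem rat {n : ℕ} {P : FR (ι ⊕ Fin n)} (hP : PRD P) (x : ι → ZMod p) (u : Fin n → ZMod p)
    (c : ZMod p) {t : Fin n → AlgebraicClosure (ZMod p)}
    (h1 : P (AlgebraicClosure (ZMod p)) (Sum.elim
      (fun i => algebraMap (ZMod p) (AlgebraicClosure (ZMod p)) (x i)) t))
    (h2 : ∑ i, algebraMap (ZMod p) (AlgebraicClosure (ZMod p)) (u i) * t i =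
      algebraMap (ZMod p) (AlgebraicClosure (ZMod p)) c)
    (h3 : ∀ t' : Fin n → AlgebraicClosure (ZMod p), P (AlgebraicClosure (ZMod p)) (Sum.elim
      (fun i => algebraMap (ZMod p) (AlgebraicClosure (ZMod p)) (x i)) t') →
      ∑ i, algebraMap (ZMod p) (AlgebraicClosure (ZMod p)) (u i) * t' i =
        algebraMap (ZMod p) (AlgebraicClosure (ZMod p)) c → t' = t) :
    ∃ r : Fin n → ZMod p, t = fun i => algebraMap (ZMod p) (AlgebraicClosure (ZMod p)) (r i) := by
  have hfix : ∀ r : ZMod p, frobenius (AlgebraicClosure (ZMod p)) p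
      (algebraMap (ZMod p) (AlgebraicClosure (ZMod p)) r) =
      algebraMap (ZMod p) (AlgebraicClosure (ZMod p)) r := by
    intro r
    rw [frobenius_def, ← map_pow, ZMod.pow_card]
  have h4 := (prd_hom hP (frobenius (AlgebraicClosure (ZMod p)) p)
    (Sum.elim (fun i => algebraMap (ZMod p) (AlgebraicClosure (ZMod p)) (x i)) t)).2 h1
  have h5 : (fun i => frobenius (AlgebraicClosure (ZMod p)) p
      (Sum.elim (fun i => algebraMap (ZMod p) (AlgebraicClosure (ZMod p)) (x i)) t i)) =
      Sum.elim (fun i => algebraMap (ZMod p) (AlgebraicClosure (ZMod p)) (x i))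
        (fun i => t i ^ p) := by
    funext i
    rcases i with i | i
    · simp only [Sum.elim_inl]
      exact hfix (x i)
    · simp only [Sum.elim_inr]
      exact frobenius_def _ _
  rw [h5] at h4
  have h6 : ∑ i, algebraMap (ZMod p) (AlgebraicClosure (ZMod p)) (u i) * t i ^ p =
      algebraMap (ZMod p) (AlgebraicClosure (ZMod p)) c := by
    have := congrArg (frobenius (AlgebraicClosure (ZMod p)) p) h2
    rw [map_sum, hfix] at this
    rw [← this]
    refine Finset.sum_congr rfl fun i _ => ?_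
    rw [map_mul, hfix, frobenius_def]
  have h7 := h3 _ h4 h6
  have h8 : ∀ i, ∃ r : ZMod p, algebraMap (ZMod p) (AlgebraicClosure (ZMod p)) r = t i :=
    fun i => rat_of_pow (congrFun h7 i)
  choose r hr using h8
  exact ⟨r, funext fun i => (hr i).symm⟩

end Pool.Agent.CvS
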