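import Pool.Agent.CvS.Defs
import Pool.Agent.PTr.Conn

/-!
# Package CvS-Few: sums over few elements, numbers of few vectors

* `prd_dc`: a `PRD` relation over `ZMod p` with definable parameters is a bounded formula
  (`PRc.prd_delta'`); restated.
* `sum_few`: `S b v` (`b < p v`) a bounded formula, `g` definable. The function which is `∑_(b < p v, S b v) g b v`
  if there are at most `C` such `b`, and `0` otherwise, is definable. Proof: for each `e ≤ C` there is an
  increasing sequence `b_1 < .. < b_e < p v` which enumerates the set (`Delta0.bexVec`; all `b < p v` with `S b v` are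
  among them), and the value is `∑ g b_i v`: graph by a bounded formula, `DFun.ofGraph` with the bound
  `C * (maximum)`: for a bound of `∑_(i < C) g (b_i) v` use that `g` is bounded by a definable function:
  from the hypothesis `g b v ≤ G v`.
* `cnt_few`: the number of the vectors `t ∈ [0, p v) ^ n` with `S t v`, if it is at most `C`, and `0` otherwise:
  the same with codes (or with `C` vectors, `Delta0.bexVec` for `Fin (C * n)`).
-/

set_option autoImplicit false

noncomputable section

namespace Pool.Agent.CvS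

open Finset Polynomial Pool.Agent.PRc Pool.Agent.Grz Pool.Agent.GAvg Pool.Agent.PTr
open scoped Classical

/-- enumeration of a set with at most `C` elements -/
private theorem comb_Few {α : Type} (A : Finset α) (C y : ℕ) (g : α → ℕ) :
    (#A ≤ C ∧ y = ∑ b ∈ A, g b) ↔ ∃ e : Fin (C + 1), ∃ x : Fin e → α, (∀ k, x k ∈ A) ∧
      (∀ k l, k ≠ l → x k ≠ x l) ∧ (∀ b ∈ A, ∃ k, b = x k) ∧ y = ∑ k, g (x k) := by
  constructor
  · rintro ⟨h1, h2⟩
    refine ⟨⟨#A, by omega⟩, fun k => (A.equivFin.symm k).1, fun k => (A.equivFin.symm k).2,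
      ?_, ?_, ?_⟩
    · intro k l hkl h
      exact hkl (A.equivFin.symm.injective (Subtype.ext h))
    · intro b hb
      refine ⟨A.equivFin ⟨b, hb⟩, ?_⟩
      show b = (A.equivFin.symm (A.equivFin ⟨b, hb⟩)).1
      rw [Equiv.symm_apply_apply]
    · rw [h2, ← Finset.sum_coe_sort A g]
      exact (Equiv.sum_comp A.equivFin.symm (fun b => g b.1)).symm
  · rintro ⟨e, x, h1, h2, h3, h4⟩
    have hinj : Function.Injective x := by
      intro k l h
      by_contra hkl
      exact h2 k l hkl h
    have hA : A = univ.image x := by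
      ext b
      rw [mem_image]
      constructor
      · intro hb
        obtain ⟨k, hk⟩ := h3 b hb
        exact ⟨k, mem_univ k, hk.symm⟩
      · rintro ⟨k, -, rfl⟩
        exact h1 k
    constructor
    · rw [hA, card_image_of_injective _ hinj, card_univ, Fintype.card_fin]
      have := e.isLt
      omega
    · rw [h4, hA, sum_image fun k _ l _ h => hinj h]

/-- sets with more than `C` elements -/
private theorem large_Few {α : Type} (A : Finset α) (C : ℕ) :
    C < #A ↔ ∃ x : Fin (C + 1) → α, (∀ k, x k ∈ A) ∧ ∀ k l, k ≠ l → x k ≠ x l := by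
  constructor
  · intro h
    obtain ⟨B, hB, hc⟩ := exists_subset_card_eq (show C + 1 ≤ #A from h)
    refine ⟨fun k => (B.equivFin.symm (finCongr hc.symm k)).1,
      fun k => hB (B.equivFin.symm _).2, ?_⟩
    intro k l hkl h1
    exact hkl ((finCongr hc.symm).injective (B.equivFin.symm.injective (Subtype.ext h1)))
  · rintro ⟨x, h1, h2⟩
    have hinj : Function.Injective x := by
      intro k l h
      by_contra hkl
      exact h2 k l hkl h
    have h3 : #(univ.image x) ≤ #A := card_le_card (by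
      intro b hb
      obtain ⟨k, -, rfl⟩ := mem_image.1 hb
      exact h1 k)
    rw [card_image_of_injective _ hinj, card_univ, Fintype.card_fin] at h3
    exact h3

private theorem ne_Few {m : ℕ} {κ : Type} {x y : (Fin m → ℕ) → ℕ} (hx : DFun m x)
    (hy : DFun m y) (k l : κ) : Delta0 m (fun w => k ≠ l → x w ≠ y w) := by
  by_cases h : k = l
  · refine (Delta0.eqFun (DFun.const 0) (DFun.const 0)).of_iff fun w => ?_
    simp [h]
  · refine (Delta0.eqFun hx hy).not.of_iff fun w => ?_
    simp [h]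

theorem sum_few {n : ℕ} (C : ℕ) {p G : (Fin n → ℕ) → ℕ} (hp : DFun n p) (hG : DFun n G)
    {S : ℕ → (Fin n → ℕ) → Prop} (hS : Delta0 (n + 1) (fun w => S (w 0) fun i => w i.succ))
    {g : ℕ → (Fin n → ℕ) → ℕ} (hg : DFun (n + 1) (fun w => g (w 0) fun i => w i.succ))
    (hgG : ∀ b v, g b v ≤ G v) :
    DFun n (fun v => if #{b ∈ range (p v) | S b v} ≤ C then
      ∑ b ∈ range (p v) with S b v, g b v else 0) := by
  have hS' : ∀ (m : ℕ) (t : (Fin m → ℕ) → ℕ) (v : Fin n → (Fin m → ℕ) → ℕ), DFun m t →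
      (∀ i, DFun m (v i)) → Delta0 m (fun w => S (t w) fun i => v i w) := by
    intro m t v ht hv
    exact hS.subst (h := Fin.cons t v) (by
      intro i
      refine Fin.cases ?_ (fun j => ?_) i
      · exact ht
      · exact hv j)
  have hg' : ∀ (m : ℕ) (t : (Fin m → ℕ) → ℕ) (v : Fin n → (Fin m → ℕ) → ℕ), DFun m t →
      (∀ i, DFun m (v i)) → DFun m (fun w => g (t w) fun i => v i w) := by
    intro m t v ht hv
    exact hg.comp (h := Fin.cons t v) (by
      intro i
      refine Fin.cases ?_ (fun j => ?_) i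
      · exact ht
      · exact hv j)
  have hin : ∀ (m : ℕ) (t : (Fin m → ℕ) → ℕ) (v : Fin n → (Fin m → ℕ) → ℕ), DFun m t →
      (∀ i, DFun m (v i)) → Delta0 m (fun w => t w < p (fun i => v i w) ∧
        S (t w) fun i => v i w) := fun m t v ht hv =>
    (Delta0.ltFun ht (hp.comp hv)).and (hS' m t v ht hv)
  refine DFun.ofGraph (b := fun v => C * G v) ((DFun.const C).mul hG) (fun v => ?_) ?_
  · split_ifs with h
    · calc ∑ b ∈ range (p v) with S b v, g b v
          ≤ ∑ b ∈ range (p v) with S b v, G v := sum_le_sum fun b _ => hgG b v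
        _ = #{b ∈ range (p v) | S b v} * G v := by rw [sum_const, smul_eq_mul]
        _ ≤ C * G v := Nat.mul_le_mul_right _ h
    · exact Nat.zero_le _
  -- enumerations
  have h1 : ∀ e : Fin (C + 1), Delta0 (n + 1) (fun w => ∃ x : Fin e → ℕ,
      (∀ k, x k ≤ p fun i => w i.succ) ∧
      ((∀ k, x k < p (fun i => w i.succ) ∧ S (x k) fun i => w i.succ) ∧
        (∀ k l, k ≠ l → x k ≠ x l) ∧
        (∀ b, b ≤ p (fun i => w i.succ) →
          (b < p (fun i => w i.succ) ∧ S b fun i => w i.succ) → ∃ k, b = x k) ∧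
        w 0 = ∑ k, g (x k) fun i => w i.succ)) := by
    intro e
    refine Delta0.bexVec (D := e) (b := fun w => p fun i => w i.succ) hp.weak
      (P := fun x w => (∀ k, x k < p (fun i => w i.succ) ∧ S (x k) fun i => w i.succ) ∧
        (∀ k l, k ≠ l → x k ≠ x l) ∧
        (∀ b, b ≤ p (fun i => w i.succ) →
          (b < p (fun i => w i.succ) ∧ S b fun i => w i.succ) → ∃ k, b = x k) ∧
        w 0 = ∑ k, g (x k) fun i => w i.succ) ?_
    intro m x v hx hv
    have hv' : ∀ i : Fin n, DFun m (v i.succ) := fun i => hv _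
    refine (Delta0.allOf fun k => hin m (x k) _ (hx k) hv').and
      ((Delta0.allOf fun k => Delta0.allOf fun l => ne_Few (hx k) (hx l) k l).and
        (Delta0.and ?_ ?_))
    · refine Delta0.ballFun (b := fun w => p fun i => v i.succ w) (hp.comp hv')
        (P := fun b w => (b < p (fun i => v i.succ w) ∧ S b fun i => v i.succ w) →
          ∃ k, b = x k w) ?_
      exact (hin (m + 1) (fun w => w 0) (fun i w => v i.succ fun j => w j.succ) (DFun.proj 0)
        fun i => (hv' i).weak).imp
          (Delta0.exOf fun k => Delta0.eqFun (DFun.proj 0) (hx k).weak)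
    · exact Delta0.eqFun (hv 0) (DFun.finSum _ fun k => hg' m (x k) _ (hx k) hv')
  have h2 : Delta0 (n + 1) (fun w => ∃ x : Fin (C + 1) → ℕ,
      (∀ k, x k ≤ p fun i => w i.succ) ∧
      ((∀ k, x k < p (fun i => w i.succ) ∧ S (x k) fun i => w i.succ) ∧
        (∀ k l, k ≠ l → x k ≠ x l))) := by
    refine Delta0.bexVec (D := C + 1) (b := fun w => p fun i => w i.succ) hp.weak
      (P := fun x w => (∀ k, x k < p (fun i => w i.succ) ∧ S (x k) fun i => w i.succ) ∧
        (∀ k l, k ≠ l → x k ≠ x l)) ?_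
    intro m x v hx hv
    have hv' : ∀ i : Fin n, DFun m (v i.succ) := fun i => hv _
    exact (Delta0.allOf fun k => hin m (x k) _ (hx k) hv').and
      (Delta0.allOf fun k => Delta0.allOf fun l => ne_Few (hx k) (hx l) k l)
  refine ((Delta0.exOf h1).or (h2.and (Delta0.eqFun (DFun.proj 0) (DFun.const 0)))).of_iff
    fun w => ?_
  obtain ⟨v, hv⟩ : ∃ v : Fin n → ℕ, v = fun i => w i.succ := ⟨_, rfl⟩
  rw [← hv]
  have hmem : ∀ b, b ∈ ({b ∈ range (p v) | S b v} : Finset ℕ) ↔ b < p v ∧ S b v := by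
    intro b
    rw [mem_filter, mem_range]
  have c1 := comb_Few {b ∈ range (p v) | S b v} C (w 0) fun b => g b v
  have c2 := large_Few {b ∈ range (p v) | S b v} C
  constructor
  · intro h
    split_ifs at h with h3
    · left
      obtain ⟨e, x, e1, e2, e3, e4⟩ := c1.1 ⟨h3, h⟩
      refine ⟨e, x, fun k => ((hmem _).1 (e1 k)).1.le, fun k => (hmem _).1 (e1 k), e2, ?_, e4⟩
      intro b _ hb
      exact e3 b ((hmem b).2 hb)
    · right
      obtain ⟨x, e1, e2⟩ := c2.1 (not_le.1 h3)
      exact ⟨⟨x, fun k => ((hmem _).1 (e1 k)).1.le, fun k => (hmem _).1 (e1 k), e2⟩, h⟩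
  · rintro (⟨e, x, -, e1, e2, e3, e4⟩ | ⟨⟨x, -, e1, e2⟩, h⟩)
    · obtain ⟨h3, h4⟩ := c1.2 ⟨e, x, fun k => (hmem _).2 (e1 k), e2,
        fun b hb => e3 b ((hmem b).1 hb).1.le ((hmem b).1 hb), e4⟩
      rw [if_pos h3]
      exact h4
    · have h3 := c2.2 ⟨x, fun k => (hmem _).2 (e1 k), e2⟩
      rw [if_neg (not_le.2 h3)]
      exact h

/-- the number of the vectors is equal to `e` -/
private theorem card_Few {n l : ℕ} (e : ℕ) {p : (Fin n → ℕ) → ℕ} (hp : DFun n p)
    {S : (Fin l → ℕ) → (Fin n → ℕ) → Prop}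
    (hS : ∀ (m : ℕ) (t : Fin l → (Fin m → ℕ) → ℕ) (v : Fin n → (Fin m → ℕ) → ℕ),
      (∀ i, DFun m (t i)) → (∀ i, DFun m (v i)) →
      Delta0 m (fun w => S (fun i => t i w) fun i => v i w)) :
    Delta0 n (fun v => e < #{t ∈ Fintype.piFinset fun _ : Fin l => range (p v) | S t v}) := by
  have h1 : Delta0 n (fun v => ∃ x : Fin (e + 1) × Fin l → ℕ, (∀ k, x k ≤ p v) ∧
      ((∀ k, (∀ i, x (k, i) < p v) ∧ S (fun i => x (k, i)) v) ∧
        ∀ k k', k ≠ k' → ∃ i, x (k, i) ≠ x (k', i))) := by
    refine Delta0.bexState (κ := Fin (e + 1) × Fin l) hp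
      (P := fun x v => (∀ k, (∀ i, x (k, i) < p v) ∧ S (fun i => x (k, i)) v) ∧
        ∀ k k', k ≠ k' → ∃ i, x (k, i) ≠ x (k', i)) ?_
    intro m x v hx hv
    refine (Delta0.allOf fun k => (Delta0.allOf fun i =>
      Delta0.ltFun (hx (k, i)) (hp.comp hv)).and (hS m _ v (fun i => hx (k, i)) hv)).and
        (Delta0.allOf fun k => Delta0.allOf fun k' => ?_)
    by_cases h : k = k'
    · refine (Delta0.eqFun (DFun.const 0) (DFun.const 0)).of_iff fun w => ?_
      simp [h]
    · refine (Delta0.exOf fun i : Fin l =>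
        (Delta0.eqFun (hx (k, i)) (hx (k', i))).not).of_iff fun w => ?_
      exact ⟨fun h2 => h2 h, fun h2 _ => h2⟩
  refine h1.of_iff fun v => ?_
  rw [large_Few]
  constructor
  · rintro ⟨x, e1, e2⟩
    have e3 : ∀ k i, x k i < p v := fun k i =>
      mem_range.1 (Fintype.mem_piFinset.1 (mem_filter.1 (e1 k)).1 i)
    refine ⟨fun k => x k.1 k.2, fun k => (e3 k.1 k.2).le,
      fun k => ⟨fun i => e3 k i, (mem_filter.1 (e1 k)).2⟩, ?_⟩
    intro k k' hk
    by_contra hcon
    push Not at hcon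
    exact e2 k k' hk (funext hcon)
  · rintro ⟨x, -, e1, e2⟩
    refine ⟨fun k i => x (k, i), fun k => mem_filter.2 ⟨Fintype.mem_piFinset.2 fun i =>
      mem_range.2 ((e1 k).1 i), (e1 k).2⟩, ?_⟩
    intro k k' hk h
    obtain ⟨i, hi⟩ := e2 k k' hk
    exact hi (congrFun h i)

theorem cnt_few {n l : ℕ} (C : ℕ) {p : (Fin n → ℕ) → ℕ} (hp : DFun n p)
    {S : (Fin l → ℕ) → (Fin n → ℕ) → Prop}
    (hS : ∀ (m : ℕ) (t : Fin l → (Fin m → ℕ) → ℕ) (v : Fin n → (Fin m → ℕ) → ℕ),
      (∀ i, DFun m (t i)) → (∀ i, DFun m (v i)) →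
      Delta0 m (fun w => S (fun i => t i w) fun i => v i w)) :
    DFun n (fun v => if #{t ∈ Fintype.piFinset fun _ : Fin l => range (p v) | S t v} ≤ C then
      #{t ∈ Fintype.piFinset fun _ : Fin l => range (p v) | S t v} else 0) := by
  have h1 : DFun n (fun v => ∑ e ∈ range C,
      if e < #{t ∈ Fintype.piFinset fun _ : Fin l => range (p v) | S t v} then 1 else 0) :=
    DFun.finSum _ fun e => DFun.ite (card_Few e hp hS) (DFun.const 1) (DFun.const 0)
  have h2 := DFun.ite (card_Few C hp hS) (DFun.const 0) h1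
  refine (show (fun v => if #{t ∈ Fintype.piFinset fun _ : Fin l => range (p v) | S t v} ≤ C
    then #{t ∈ Fintype.piFinset fun _ : Fin l => range (p v) | S t v} else 0) = _ from ?_) ▸ h2
  funext v
  by_cases h : #{t ∈ Fintype.piFinset fun _ : Fin l => range (p v) | S t v} ≤ C
  · rw [if_pos h, if_neg (not_lt.2 h)]
    obtain ⟨c, hc⟩ : ∃ c, c = #{t ∈ Fintype.piFinset fun _ : Fin l => range (p v) | S t v} :=
      ⟨_, rfl⟩
    rw [← hc] at h ⊢
    rw [sum_boole, Nat.cast_id]
    have h3 : ({e ∈ range C | e < c} : Finset ℕ) = range c := by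
      ext e
      rw [mem_filter, mem_range, mem_range]
      omega
    rw [h3, card_range]
  · rw [if_neg h, if_pos (not_le.1 h)]

end Pool.Agent.CvS
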