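import Pool.Agent.CvS.FinU

/-!
# Package CvS-SOne: few infinite fibres if the dimension is at most one

* `dm1_fb`: the fibres of a set with `Dm1` satisfy `Dm1` (use the pair `i.succ < j.succ`).
* `s1_few`: `fib_unif` for `P (x, b; t) = X (cons b t, x)` (parameters `ι ⊕ Unit`) gives a `PRD`
relation `Inf (x, b)`;
  by `fin_unif` for `Inf` there is `C` such that for every `x` the set `S` of the `b` with infinite
fibre has at most
  `C` elements or finite complement. Suppose that it has finite complement, so it is infinite. For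
`b ∈ S` the
  fibre in `K ^ n` is infinite, so for some `j : Fin n` the projection to the coordinate `j` is
infinite (a subset of
  a product of finite sets is finite). There are finitely many `j`, so for some `j` this holds for
infinitely many `b`
  (`Set.infinite_iUnion`-like / `Set.Finite.iUnion`). `Dm1` for `0 < j.succ` gives `G ≠ 0` with
`G.evalEval b s = 0`
  for these `b` and infinitely many `s`; so `G.eval₂`... the polynomial
`G(b, Y) = G.map (evalRingHom b)` has infinitely
  many roots, so it is `0`, so every coefficient of `G` (a polynomial in `x`) vanishes at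
infinitely many `b`, so `G = 0`
  (`Polynomial.eq_zero_of_infinite_isRoot`). Contradiction.
`Polynomial.evalEval x y G = (G.map (evalRingHom x)).eval y`:
  `Polynomial.evalEval`, `eval_map`-like lemmas in `Mathlib.Algebra.Polynomial.Bivariate`
(`evalRingHom`,
  `map_evalRingHom_eval`).
-/

set_option autoImplicit false

noncomputable section

namespace Pool.Agent.CvS

open Polynomial Pool.Agent.PRc Pool.Agent.Grz

theorem dm1_fb {K : Type} [Field K] {n : ℕ} {S : Set (Fin (n + 1) → K)} (h : Dm1 S) (b : K) :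
    Dm1 (Fb S b) := by
  intro i j hij
  obtain ⟨G, hG, hz⟩ := h i.succ j.succ (Fin.succ_lt_succ_iff.2 hij)
  exact ⟨G, hG, fun z hz' => by simpa using hz _ hz'⟩

/-- the relation `X (cons b t, x)` with the parameters `x, b` -/
private def P_SOne {ι : Type} {n : ℕ} (X : FR (Fin (n + 1) ⊕ ι)) : FR ((ι ⊕ Unit) ⊕ Fin n) :=
  fun k _ y => X k (Sum.elim (Fin.cons (y (Sum.inl (Sum.inr ()))) fun i => y (Sum.inr i))
    fun i => y (Sum.inl (Sum.inl i)))

private theorem prd_SOne {ι : Type} {n : ℕ} {X : FR (Fin (n + 1) ⊕ ι)} (hX : PRD X) :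
    PRD (P_SOne X) := by
  have h := hX.comp (ι := (ι ⊕ Unit) ⊕ Fin n) (G := Sum.elim
    (Fin.cases (fun _ _ y => y (Sum.inl (Sum.inr ()))) fun i _ _ y => y (Sum.inr i))
    fun i _ _ y => y (Sum.inl (Sum.inl i))) (by
      rintro (i | i)
      · refine Fin.cases ?_ (fun i => ?_) i
        · exact PRF.var _
        · exact PRF.var _
      · exact PRF.var _)
  refine h.congr fun k _ y => ?_
  unfold P_SOne
  have : (fun j => (Sum.elim
    (Fin.cases (fun _ _ y => y (Sum.inl (Sum.inr ()))) fun i _ _ y => y (Sum.inr i))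
    (fun i _ _ y => y (Sum.inl (Sum.inl i))) : Fin (n + 1) ⊕ ι → FF ((ι ⊕ Unit) ⊕ Fin n)) j k y) =
      Sum.elim (Fin.cons (y (Sum.inl (Sum.inr ()))) fun i => y (Sum.inr i))
        fun i => y (Sum.inl (Sum.inl i)) := by
    funext j
    rcases j with j | j
    · refine Fin.cases ?_ (fun i => ?_) j
      · rfl
      · rfl
    · rfl
  rw [this]

private theorem proj_SOne {K : Type} {n : ℕ} {T : Set (Fin n → K)} (h : T.Infinite) :
    ∃ j, ((fun t : Fin n → K => t j) '' T).Infinite := by
  by_contra hc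
  push Not at hc
  refine h ((Set.Finite.pi' hc).subset fun t ht j => ⟨t, ht, rfl⟩)

private theorem zero_SOne {K : Type} [Field K] {G : K[X][X]} {T : Set K} (hT : T.Infinite)
    (h : ∀ b ∈ T, {s : K | G.evalEval b s = 0}.Infinite) : G = 0 := by
  have h1 : ∀ b ∈ T, G.map (evalRingHom b) = 0 := fun b hb => by
    refine Polynomial.eq_zero_of_infinite_isRoot _ ((h b hb).mono fun s hs => ?_)
    simp only [Set.mem_ofPred_eq] at hs ⊢
    rw [IsRoot.def, map_evalRingHom_eval]
    exact hs
  ext1 i
  rw [coeff_zero]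
  refine Polynomial.eq_zero_of_infinite_isRoot _ (hT.mono fun b hb => ?_)
  have := congrArg (fun p => p.coeff i) (h1 b hb)
  simpa using this

private theorem fin_SOne {K : Type} [Field K] [Infinite K] {n : ℕ} {S : Set (Fin (n + 1) → K)}
    (h : Dm1 S) : ¬ {b : K | ¬ (Fb S b).Infinite}.Finite := by
  intro hf
  have h1 : {b : K | (Fb S b).Infinite}.Infinite := by
    have := hf.infinite_compl
    refine this.mono fun b hb => ?_
    simpa using hb
  have h2 : ∃ j : Fin n, {b : K | ((fun t : Fin n → K => t j) '' Fb S b).Infinite}.Infinite := by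
    by_contra hc
    push Not at hc
    refine h1 ((Set.finite_iUnion hc).subset fun b hb => ?_)
    obtain ⟨j, hj⟩ := proj_SOne hb
    exact Set.mem_iUnion.2 ⟨j, hj⟩
  obtain ⟨j, hj⟩ := h2
  obtain ⟨G, hG, hz⟩ := h 0 j.succ (Fin.succ_pos j)
  refine hG (zero_SOne hj fun b hb => hb.mono ?_)
  rintro s ⟨t, ht, rfl⟩
  simpa using hz _ ht

theorem s1_few {ι : Type} {n : ℕ} {X : FR (Fin (n + 1) ⊕ ι)} (hX : PRD X) :
    ∃ (C : ℕ) (Q : FR (ι ⊕ Unit)), PRD Q ∧
      ∀ (k K : Type) [Field k] [Field K] [IsAlgClosed K] (φ : k →+* K) (x : ι → k),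
        (∀ b : k, Q k (Sum.elim x fun _ => b) ↔
          (Fb (Pt X K fun i => φ (x i)) (φ b)).Infinite) ∧
        (Dm1 (Pt X K fun i => φ (x i)) →
          {b : K | (Fb (Pt X K fun i => φ (x i)) b).Infinite}.Finite ∧
          {b : K | (Fb (Pt X K fun i => φ (x i)) b).Infinite}.ncard ≤ C) := by
  obtain ⟨B, Q, hQ, h⟩ := fib_unif (prd_SOne hX)
  obtain ⟨C, hC⟩ := fin_unif hQ
  refine ⟨C, Q, hQ, fun k K _ _ _ φ x => ⟨fun b =>
    (h k K φ (Sum.elim x fun _ => b)).1, fun hd => ?_⟩⟩
  have hK : Infinite K := inferInstance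
  have he : ∀ b : K, Q K (Sum.elim (fun i => φ (x i)) fun _ => b) ↔
      (Fb (Pt X K fun i => φ (x i)) b).Infinite := fun b =>
    (h K K (RingHom.id K) (Sum.elim (fun i => φ (x i)) fun _ => b)).1
  have := hC K fun i => φ (x i)
  simp only [he] at this
  exact this.resolve_right fun h' => fin_SOne hd h'.1

end Pool.Agent.CvS
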