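import Pool.Agent.CvS.Defs

/-!
# Systems of polynomial congruences: definitions

`SN m c`: the number of the solutions modulo `m` of the system `∑_e c_(l,e) z^e = 0`, `l < r`, in `n` unknowns, with
exponents at most `d`; `SZ K c`: the solutions in `K ^ n`; `Cv p c`: the solutions over the algebraic closure of
`ZMod p` form a set of dimension at most one.
-/

set_option autoImplicit false

noncomputable section

namespace Pool.Agent.CvS

open Finset Polynomial

/-- the value of the polynomial with the coefficients `c` -/
def sval {n d : ℕ} {K : Type} [CommSemiring K] (c : (Fin n → Fin (d + 1)) → ℕ) (z : Fin n → K) :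
    K :=
  ∑ e : Fin n → Fin (d + 1), (c e : K) * ∏ i, z i ^ (e i : ℕ)

/-- the number of the solutions modulo `m` -/
def SN {n d r : ℕ} (m : ℕ) (c : Fin r → (Fin n → Fin (d + 1)) → ℕ) : ℕ :=
  #{z ∈ Fintype.piFinset fun _ : Fin n => range m | ∀ l, m ∣ sval (c l) z}

/-- the solutions in a field -/
def SZ {n d r : ℕ} (K : Type) [Field K] (c : Fin r → (Fin n → Fin (d + 1)) → ℕ) :
    Set (Fin n → K) := {z | ∀ l, sval (c l) z = 0}

/-- the solution set modulo the prime `p` has dimension at most one -/
def Cv {n d r : ℕ} (p : ℕ) (c : Fin r → (Fin n → Fin (d + 1)) → ℕ) : Prop :=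
  ∃ h : p.Prime, haveI := Fact.mk h; Dm1 (SZ (AlgebraicClosure (ZMod p)) c)

end Pool.Agent.CvS
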