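import Mathlib

/-!
# Package CvS-Avg: a projection which is injective on almost all fibres

Only Mathlib. `k` a finite field with `q` elements, `φ : k → K` a homomorphism of fields, `Y b ⊆ K ^ n` a set
with at most `B` elements for `b ∈ k`, `1 ≤ n`. There is `u ∈ k ^ n` such that for all but at most `B ^ 2` elements
`b` of `k` the map `t ↦ ∑ φ(u_i) t_i` is injective on `Y b`.

Proof. For `t ≠ t'` in `K ^ n` the set of the `u ∈ k ^ n` with `∑ φ(u_i) (t_i - t'_i) = 0` has at most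
`q ^ (n - 1)` elements: some `t_j ≠ t'_j`, and `φ(u_j)` is determined by the other `u_i` (`lin_le`). Count the
pairs `(u, b)` for which injectivity on `Y b` fails: at most `∑_b ∑_(t ≠ t' ∈ Y b) q ^ (n - 1) ≤ q B ^ 2 q ^ (n - 1)
= B ^ 2 q ^ n`. There are `q ^ n` vectors `u`, so for one of them the number of the `b` is at most `B ^ 2`
(`Finset.exists_le_card_fiber...`, or: otherwise the sum over `u` would be at least `(B ^ 2 + 1) q ^ n`).
-/

set_option autoImplicit false

noncomputable section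

namespace Pool.Agent.CvS

open Finset

variable {k K : Type} [Field k] [Fintype k] [Field K] (φ : k →+* K) {n : ℕ}

open scoped Classical in
set_option linter.unusedVariables false in
theorem lin_le (hn : 1 ≤ n) {t t' : Fin n → K} (h : t ≠ t') :
    #{u : Fin n → k | ∑ i, φ (u i) * t i = ∑ i, φ (u i) * t' i} ≤ Fintype.card k ^ (n - 1) := by
  obtain ⟨j, hj⟩ : ∃ j, t j ≠ t' j := Function.ne_iff.1 h
  have h1 : #{u : Fin n → k | ∑ i, φ (u i) * t i = ∑ i, φ (u i) * t' i} ≤
      #(univ : Finset ({i : Fin n // i ≠ j} → k)) := by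
    refine Finset.card_le_card_of_injOn (fun u i => u i.1) (fun u _ => by simp) ?_
    intro u hu v hv huv
    have hu' : ∑ i, φ (u i) * t i = ∑ i, φ (u i) * t' i := by simpa using hu
    have hv' : ∑ i, φ (v i) * t i = ∑ i, φ (v i) * t' i := by simpa using hv
    have hne : ∀ i, i ≠ j → u i = v i := fun i hi => congrFun huv ⟨i, hi⟩
    have hs : ∑ i, (φ (u i) - φ (v i)) * (t i - t' i) = 0 := by
      have h2 : ∀ i, (φ (u i) - φ (v i)) * (t i - t' i) =
          (φ (u i) * t i - φ (u i) * t' i) - (φ (v i) * t i - φ (v i) * t' i) := fun i => by ring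
      rw [Finset.sum_congr rfl fun i _ => h2 i, Finset.sum_sub_distrib, Finset.sum_sub_distrib,
        Finset.sum_sub_distrib, hu', hv', sub_self, sub_self, sub_self]
    rw [Finset.sum_eq_single j (fun i _ hi => by rw [hne i hi, sub_self, zero_mul])
      (fun hi => absurd (Finset.mem_univ j) hi)] at hs
    have hj' : u j = v j := by
      rcases mul_eq_zero.1 hs with h3 | h3
      · exact φ.injective (sub_eq_zero.1 h3)
      · exact absurd (sub_eq_zero.1 h3) hj
    funext i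
    by_cases hi : i = j
    · rw [hi, hj']
    · exact hne i hi
  refine h1.trans (le_of_eq ?_)
  rw [Finset.card_univ, Fintype.card_fun]
  congr 1
  rw [Fintype.card_subtype_compl, Fintype.card_fin, Fintype.card_subtype_eq]

open scoped Classical in
theorem avg (hn : 1 ≤ n) {B : ℕ} (Y : k → Set (Fin n → K)) (hf : ∀ b, (Y b).Finite)
    (hB : ∀ b, (Y b).ncard ≤ B) : ∃ u : Fin n → k,
      #{b : k | ∃ t ∈ Y b, ∃ t' ∈ Y b, t ≠ t' ∧ ∑ i, φ (u i) * t i = ∑ i, φ (u i) * t' i} ≤
        B ^ 2 := by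
  by_contra hcon
  push Not at hcon
  have hq : 0 < Fintype.card k := Fintype.card_pos
  -- the pairs for one `b`
  have hb : ∀ b : k, #{u : Fin n → k | ∃ t ∈ Y b, ∃ t' ∈ Y b, t ≠ t' ∧
      ∑ i, φ (u i) * t i = ∑ i, φ (u i) * t' i} ≤ B ^ 2 * Fintype.card k ^ (n - 1) := by
    intro b
    have h1 : ({u : Fin n → k | ∃ t ∈ Y b, ∃ t' ∈ Y b, t ≠ t' ∧
        ∑ i, φ (u i) * t i = ∑ i, φ (u i) * t' i} : Finset (Fin n → k)) ⊆
        ((hf b).toFinset ×ˢ (hf b).toFinset).biUnion fun p =>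
          if p.1 = p.2 then (∅ : Finset (Fin n → k)) else
            univ.filter fun u => ∑ i, φ (u i) * p.1 i = ∑ i, φ (u i) * p.2 i := by
      intro u hu
      obtain ⟨t, ht, t', ht', hne, he⟩ : ∃ t ∈ Y b, ∃ t' ∈ Y b, t ≠ t' ∧
        ∑ i, φ (u i) * t i = ∑ i, φ (u i) * t' i := by simpa using hu
      rw [Finset.mem_biUnion]
      refine ⟨(t, t'), Finset.mem_product.2 ⟨(hf b).mem_toFinset.2 ht,
        (hf b).mem_toFinset.2 ht'⟩, ?_⟩
      rw [if_neg hne]
      exact Finset.mem_filter.2 ⟨Finset.mem_univ _, he⟩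
    refine (Finset.card_le_card h1).trans ?_
    refine (Finset.card_biUnion_le_card_mul _ _ (Fintype.card k ^ (n - 1)) ?_).trans ?_
    · intro p _
      split_ifs with h2
      · simp
      · exact lin_le φ hn h2
    · refine Nat.mul_le_mul_right _ ?_
      rw [Finset.card_product, ← Set.ncard_eq_toFinset_card _ (hf b), pow_two]
      exact Nat.mul_le_mul (hB b) (hB b)
  -- double counting
  have h2 : ∑ u : Fin n → k, #{b : k | ∃ t ∈ Y b, ∃ t' ∈ Y b, t ≠ t' ∧
      ∑ i, φ (u i) * t i = ∑ i, φ (u i) * t' i} =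
      ∑ b : k, #{u : Fin n → k | ∃ t ∈ Y b, ∃ t' ∈ Y b, t ≠ t' ∧
        ∑ i, φ (u i) * t i = ∑ i, φ (u i) * t' i} := by
    simp only [Finset.card_filter]
    exact Finset.sum_comm
  have h3 : ∑ b : k, #{u : Fin n → k | ∃ t ∈ Y b, ∃ t' ∈ Y b, t ≠ t' ∧
        ∑ i, φ (u i) * t i = ∑ i, φ (u i) * t' i} ≤ B ^ 2 * Fintype.card k ^ n := by
    refine (Finset.sum_le_card_nsmul _ _ _ fun b _ => hb b).trans (le_of_eq ?_)
    rw [Finset.card_univ, smul_eq_mul]
    obtain ⟨m, rfl⟩ : ∃ m, n = m + 1 := ⟨n - 1, by omega⟩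
    rw [Nat.add_sub_cancel, pow_succ]
    ring
  have h4 : (B ^ 2 + 1) * Fintype.card k ^ n ≤ ∑ u : Fin n → k, #{b : k | ∃ t ∈ Y b,
      ∃ t' ∈ Y b, t ≠ t' ∧ ∑ i, φ (u i) * t i = ∑ i, φ (u i) * t' i} := by
    have h5 := Finset.card_nsmul_le_sum (univ : Finset (Fin n → k)) (fun u => #{b : k | ∃ t ∈ Y b,
      ∃ t' ∈ Y b, t ≠ t' ∧ ∑ i, φ (u i) * t i = ∑ i, φ (u i) * t' i}) (B ^ 2 + 1)
      fun u _ => hcon u
    rw [Finset.card_univ, Fintype.card_fun, Fintype.card_fin, smul_eq_mul, mul_comm] at h5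
    exact h5
  rw [h2] at h4
  have h5 : 0 < Fintype.card k ^ n := pow_pos hq n
  have h6 := h4.trans h3
  nlinarith

end Pool.Agent.CvS
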