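import Pool.Agent.CvS.FinU
import Pool.Agent.CvS.Avg
import Pool.Agent.CvS.Frb
import Pool.Agent.CvS.Few

/-!
# Package CvS-Good: solutions in finite fibres

`K = AlgebraicClosure (ZMod p)`, `φ` the embedding, `x` the parameters (`cst`). We count the solutions
`z ∈ (ZMod p)^(n+1)` of `X` for which the fibre of `Pt X K x` over the first coordinate `z 0` is finite.
No condition on the dimension.

Proof. `fib_unif` for `P (x, b; t) = X (cons b t, x)` (parameters `ι ⊕ Unit`) gives `B` and a `PRD` relation `Inf (x, b)`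
(the fibre over `b` is infinite). `Y (x, b; t) = ¬ Inf (x, b) ∧ X (cons b t, x)`: every fibre over `K` has at most
`B` elements. `Coll (x, b, u)`, `u : Fin n → K`: there are `t ≠ t'` in `Y_b` with `∑ u_i t_i = ∑ u_i t'_i`; `PRD` by
`qe` (`κ = Fin n ⊕ Fin n`, parameters `(ι ⊕ Unit) ⊕ Fin n`). `Z (b, c; x, u) = ¬ Coll (x, b, u) ∧ ∃ t, Y (x, b; t) ∧
∑ u_i t_i = c`: `PRD` by `qe`; the plane hypothesis gives `N1 p (a, u)` = the number of the `(b, c) ∈ (ZMod p)^2` with `Z`.

For every `u ∈ (ZMod p)^n` the number to be computed is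
`N1 p (a, u) + ∑_(b ∈ ZMod p, Coll (x, b, u)) #{t ∈ (ZMod p)^n | Y (x, b; t)}` (`main_id`):
`z ↦ (z 0, ∑ u_i z_(i+1))` is a bijection from the solutions with `¬ Coll (x, z 0, u)` onto the set counted by `N1`:
injective because `t ↦ ∑ u_i t_i` is injective on the fibre over `K` (`prd_hom` to pass from `ZMod p` to `K`), onto by `rat`
(`CvS/Frb`): the element `t` of the fibre over `K` with `∑ φ(u_i) t_i = φ c` is unique, so it is rational.

By `avg` (for `k = ZMod p`, `Y b` the fibre over `φ b`) there is `u` with at most `B ^ 2` elements `b ∈ ZMod p` with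
`Coll`. So the graph of the function `N p a` (`0` if `p` is not a prime) is: `y = N p a` iff (`p` not a prime and `y = 0`) or
(`p` is a prime and there are `u_i ≤ p` such that at most `B ^ 2` numbers `b < p` satisfy `Coll` and `y = N1 p (a, u) +`
(the sum, by `sum_few` with `C = B ^ 2`, of the numbers `cnt_few` with `C = B`)). `Delta0.bexVec` for `u`, `PRc.prd_delta'`
for the relations, `DFun.ofGraph` with the bound `p ^ (n + 1)`. That there are at most `B ^ 2` such `b`: the function of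
`sum_few` with `g = 1` and a comparison, or say: it is not true that there are `B ^ 2 + 1` different ones (`bexVec`).
-/

set_option autoImplicit false

noncomputable section

namespace Pool.Agent.CvS

open Finset Polynomial Pool.Agent.PRc Pool.Agent.Grz

/-- the number of the solutions in finite fibres -/
def gN {ι : Type} {n : ℕ} (X : FR (Fin (n + 1) ⊕ ι)) (p : ℕ) (a : ι → ℕ) : ℕ :=
  if h : p.Prime then haveI := Fact.mk h
    Nat.card {z : Fin (n + 1) → ZMod p // z ∈ Pt X (ZMod p) (cst (ZMod p) a) ∧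
      (Fb (Pt X (AlgebraicClosure (ZMod p)) (cst (AlgebraicClosure (ZMod p)) a))
        (algebraMap (ZMod p) (AlgebraicClosure (ZMod p)) (z 0))).Finite}
  else 0

/-! ### relations -/

private theorem rn_Good {ι κ : Type} {P : FR κ} (hP : PRD P) (σ : κ → ι) :
    PRD (fun k _ x => P k (fun j => x (σ j))) :=
  hP.comp (G := fun j => fun k _ (x : ι → k) => x (σ j)) fun j => PRF.var (σ j)

section Rel

variable {ι : Type} {n : ℕ}

/-- the relation with the first coordinate among the parameters -/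
private def P_Good (X : FR (Fin (n + 1) ⊕ ι)) : FR ((ι ⊕ Unit) ⊕ Fin n) := fun k _ z =>
  X k (Sum.elim (Fin.cons (z (Sum.inl (Sum.inr ()))) fun i => z (Sum.inr i))
    fun i => z (Sum.inl (Sum.inl i)))

private theorem P_pr_Good {X : FR (Fin (n + 1) ⊕ ι)} (hX : PRD X) : PRD (P_Good X) := by
  refine (rn_Good hX (Sum.elim (Fin.cons (Sum.inl (Sum.inr ())) fun i => Sum.inr i)
    fun i => Sum.inl (Sum.inl i) : Fin (n + 1) ⊕ ι → (ι ⊕ Unit) ⊕ Fin n)).congr
    fun k _ z => ?_
  refine iff_of_eq (congrArg (X k) ?_)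
  funext j
  rcases j with j | j
  · refine Fin.cases ?_ (fun i => ?_) j
    · rfl
    · rfl
  · rfl

/-- points in finite fibres -/
private def Y_Good (X : FR (Fin (n + 1) ⊕ ι)) (I : FR (ι ⊕ Unit)) : FR ((ι ⊕ Unit) ⊕ Fin n) :=
  fun k _ z => ¬ I k (fun j => z (Sum.inl j)) ∧ P_Good X k z

private theorem Y_pr_Good {X : FR (Fin (n + 1) ⊕ ι)} (hX : PRD X) {I : FR (ι ⊕ Unit)}
    (hI : PRD I) : PRD (Y_Good X I) :=
  (rn_Good hI fun j => Sum.inl j).not.and (P_pr_Good hX)

/-- the two points of a collision -/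
private def C0_Good {ι : Type} (Y : FR (ι ⊕ Fin n)) : FR ((ι ⊕ Fin n) ⊕ (Fin n ⊕ Fin n)) :=
  fun k _ z =>
    (Y k (Sum.elim (fun j => z (Sum.inl (Sum.inl j))) fun i => z (Sum.inr (Sum.inl i))) ∧
      Y k (Sum.elim (fun j => z (Sum.inl (Sum.inl j))) fun i => z (Sum.inr (Sum.inr i)))) ∧
    (¬ ∀ i ∈ (univ : Finset (Fin n)), z (Sum.inr (Sum.inl i)) = z (Sum.inr (Sum.inr i))) ∧
    ∑ i, z (Sum.inl (Sum.inr i)) * z (Sum.inr (Sum.inl i)) =
      ∑ i, z (Sum.inl (Sum.inr i)) * z (Sum.inr (Sum.inr i))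

private theorem C0_pr_Good {ι : Type} {Y : FR (ι ⊕ Fin n)} (hY : PRD Y) :
    PRD (C0_Good Y) := by
  refine PRD.and (PRD.and ?_ ?_) (PRD.and (PRD.not (PRD.all _ fun i _ => PRD.eq
    (PRF.var (Sum.inr (Sum.inl i))) (PRF.var (Sum.inr (Sum.inr i)))))
    (PRD.eq (PRF.sum _ fun i _ => (PRF.var (Sum.inl (Sum.inr i))).mul
      (PRF.var (Sum.inr (Sum.inl i)))) (PRF.sum _ fun i _ =>
        (PRF.var (Sum.inl (Sum.inr i))).mul (PRF.var (Sum.inr (Sum.inr i))))))
  · refine (rn_Good hY (Sum.elim (fun j => Sum.inl (Sum.inl j)) fun i =>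
      Sum.inr (Sum.inl i) : ι ⊕ Fin n → (ι ⊕ Fin n) ⊕ (Fin n ⊕ Fin n))).congr fun k _ z => ?_
    refine iff_of_eq (congrArg (Y k) ?_)
    funext j
    rcases j with j | j <;> rfl
  · refine (rn_Good hY (Sum.elim (fun j => Sum.inl (Sum.inl j)) fun i =>
      Sum.inr (Sum.inr i) : ι ⊕ Fin n → (ι ⊕ Fin n) ⊕ (Fin n ⊕ Fin n))).congr fun k _ z => ?_
    refine iff_of_eq (congrArg (Y k) ?_)
    funext j
    rcases j with j | j <;> rfl

/-- the point with a given projection -/
private def D0_Good (Y : FR ((ι ⊕ Unit) ⊕ Fin n)) : FR ((Fin 2 ⊕ (ι ⊕ Fin n)) ⊕ Fin n) :=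
  fun k _ z =>
    Y k (Sum.elim (Sum.elim (fun i => z (Sum.inl (Sum.inr (Sum.inl i))))
      fun _ => z (Sum.inl (Sum.inl 0))) fun i => z (Sum.inr i)) ∧
    ∑ i, z (Sum.inl (Sum.inr (Sum.inr i))) * z (Sum.inr i) = z (Sum.inl (Sum.inl 1))

private theorem D0_pr_Good {Y : FR ((ι ⊕ Unit) ⊕ Fin n)} (hY : PRD Y) : PRD (D0_Good Y) := by
  refine PRD.and ?_ (PRD.eq (PRF.sum _ fun i _ => (PRF.var (Sum.inl (Sum.inr (Sum.inr i)))).mul
    (PRF.var (Sum.inr i))) (PRF.var (Sum.inl (Sum.inl 1))))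
  refine (rn_Good hY (Sum.elim (Sum.elim (fun i => Sum.inl (Sum.inr (Sum.inl i)))
    fun _ => Sum.inl (Sum.inl 0)) fun i => Sum.inr i :
    (ι ⊕ Unit) ⊕ Fin n → (Fin 2 ⊕ (ι ⊕ Fin n)) ⊕ Fin n)).congr fun k _ z => ?_
  refine iff_of_eq (congrArg (Y k) ?_)
  funext j
  rcases j with (j | j) | j <;> rfl

/-- the relation in the plane -/
private def Z_Good (C : FR ((ι ⊕ Unit) ⊕ Fin n)) (D : FR (Fin 2 ⊕ (ι ⊕ Fin n))) :
    FR (Fin 2 ⊕ (ι ⊕ Fin n)) := fun k _ z =>
  ¬ C k (Sum.elim (Sum.elim (fun i => z (Sum.inr (Sum.inl i))) fun _ => z (Sum.inl 0))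
    fun i => z (Sum.inr (Sum.inr i))) ∧ D k z

private theorem Z_pr_Good {C : FR ((ι ⊕ Unit) ⊕ Fin n)} (hC : PRD C)
    {D : FR (Fin 2 ⊕ (ι ⊕ Fin n))} (hD : PRD D) : PRD (Z_Good C D) := by
  refine PRD.and (PRD.not ?_) hD
  refine (rn_Good hC (Sum.elim (Sum.elim (fun i => Sum.inr (Sum.inl i)) fun _ => Sum.inl 0)
    fun i => Sum.inr (Sum.inr i) : (ι ⊕ Unit) ⊕ Fin n → Fin 2 ⊕ (ι ⊕ Fin n))).congr
    fun k _ z => ?_
  refine iff_of_eq (congrArg (C k) ?_)
  funext j
  rcases j with (j | j) | j <;> rfl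

end Rel

/-! ### counting in one fibre -/

section Fib

variable {p : ℕ} [Fact p.Prime] {n : ℕ} {ι : Type}

private theorem elim_map_Good {k K : Type} [Field k] [Field K] (φ : k →+* K) (x : ι → k)
    (t : Fin n → k) : (Sum.elim (fun i => φ (x i)) fun i => φ (t i)) =
      fun j => φ (Sum.elim x t j) := by
  funext j
  rcases j with j | j <;> rfl

private theorem fibre_Good {Y : FR (ι ⊕ Fin n)} (hY : PRD Y) (x : ι → ZMod p)
    (u : Fin n → ZMod p)
    (h : ∀ t t' : Fin n → AlgebraicClosure (ZMod p),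
      Y (AlgebraicClosure (ZMod p)) (Sum.elim
        (fun i => algebraMap (ZMod p) (AlgebraicClosure (ZMod p)) (x i)) t) →
      Y (AlgebraicClosure (ZMod p)) (Sum.elim
        (fun i => algebraMap (ZMod p) (AlgebraicClosure (ZMod p)) (x i)) t') →
      ∑ i, algebraMap (ZMod p) (AlgebraicClosure (ZMod p)) (u i) * t i =
        ∑ i, algebraMap (ZMod p) (AlgebraicClosure (ZMod p)) (u i) * t' i → t = t') :
    Nat.card {t : Fin n → ZMod p // Y (ZMod p) (Sum.elim x t)} =
      Nat.card {c : ZMod p // ∃ t : Fin n → AlgebraicClosure (ZMod p),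
        Y (AlgebraicClosure (ZMod p)) (Sum.elim
          (fun i => algebraMap (ZMod p) (AlgebraicClosure (ZMod p)) (x i)) t) ∧
        ∑ i, algebraMap (ZMod p) (AlgebraicClosure (ZMod p)) (u i) * t i =
          algebraMap (ZMod p) (AlgebraicClosure (ZMod p)) c} := by
  have key : ∀ t : Fin n → ZMod p, Y (AlgebraicClosure (ZMod p)) (Sum.elim
      (fun i => algebraMap (ZMod p) (AlgebraicClosure (ZMod p)) (x i))
      fun i => algebraMap (ZMod p) (AlgebraicClosure (ZMod p)) (t i)) ↔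
      Y (ZMod p) (Sum.elim x t) := by
    intro t
    rw [elim_map_Good]
    exact prd_hom hY _ _
  have sm : ∀ t : Fin n → ZMod p, ∑ i, algebraMap (ZMod p) (AlgebraicClosure (ZMod p)) (u i) *
      algebraMap (ZMod p) (AlgebraicClosure (ZMod p)) (t i) =
      algebraMap (ZMod p) (AlgebraicClosure (ZMod p)) (∑ i, u i * t i) := by
    intro t
    rw [map_sum]
    exact Finset.sum_congr rfl fun i _ => (map_mul _ _ _).symm
  have inj : Function.Injective (algebraMap (ZMod p) (AlgebraicClosure (ZMod p))) :=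
    RingHom.injective _
  refine Nat.card_congr (Equiv.ofBijective (fun t => ⟨∑ i, u i * t.1 i,
    fun i => algebraMap (ZMod p) (AlgebraicClosure (ZMod p)) (t.1 i), (key t.1).2 t.2,
    sm t.1⟩) ⟨?_, ?_⟩)
  · intro t t' e
    have e1 : ∑ i, u i * t.1 i = ∑ i, u i * t'.1 i := congrArg Subtype.val e
    have e2 := h _ _ ((key t.1).2 t.2) ((key t'.1).2 t'.2) (by rw [sm, sm, e1])
    refine Subtype.ext (funext fun i => inj (congrFun e2 i))
  · rintro ⟨c, t, ht, hc⟩
    obtain ⟨r, hr⟩ := rat hY x u c ht hc fun t' ht' hc' => h _ _ ht' ht (hc'.trans hc.symm)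
    subst hr
    refine ⟨⟨r, (key r).1 ht⟩, Subtype.ext ?_⟩
    apply inj
    rw [← hc, sm]


private theorem sub_Good (p : ℕ) [Fact p.Prime] (x : ι → ZMod p) (b : ZMod p) :
    (fun j => algebraMap (ZMod p) (AlgebraicClosure (ZMod p))
      (Sum.elim x (fun _ : Unit => b) j)) =
    Sum.elim (fun i => algebraMap (ZMod p) (AlgebraicClosure (ZMod p)) (x i))
      fun _ : Unit => algebraMap (ZMod p) (AlgebraicClosure (ZMod p)) b := by
  funext j
  rcases j with j | j <;> rfl

open scoped Classical in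
/-- the number of the pairs `(b, c)` in the plane set -/
private theorem plane_Good {C : FR ((ι ⊕ Unit) ⊕ Fin n)} {D : FR (Fin 2 ⊕ (ι ⊕ Fin n))}
    (x : ι → ZMod p) (u : Fin n → ZMod p) :
    Nat.card (Pt (Z_Good C D) (ZMod p) (Sum.elim x u)) =
      ∑ b : ZMod p with ¬ C (ZMod p) (Sum.elim (Sum.elim x fun _ => b) u),
        Nat.card {c : ZMod p // D (ZMod p) (Sum.elim ![b, c] (Sum.elim x u))} := by
  have e : Pt (Z_Good C D) (ZMod p) (Sum.elim x u) ≃
      Σ b : ZMod p, {c : ZMod p // ¬ C (ZMod p) (Sum.elim (Sum.elim x fun _ => b) u) ∧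
        D (ZMod p) (Sum.elim ![b, c] (Sum.elim x u))} := by
    refine
      { toFun := fun z => ⟨z.1 0, z.1 1, z.2.1, ?_⟩
        invFun := fun q => ⟨![q.1, q.2.1], q.2.2.1, q.2.2.2⟩
        left_inv := ?_
        right_inv := ?_ }
    · have h1 : ![z.1 0, z.1 1] = z.1 := by
        funext i
        fin_cases i <;> rfl
      rw [h1]
      exact z.2.2
    · intro z
      refine Subtype.ext ?_
      funext i
      fin_cases i <;> rfl
    · intro q
      rfl
  rw [Nat.card_congr e, Nat.card_sigma, Finset.sum_filter]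
  refine Finset.sum_congr rfl fun b _ => ?_
  by_cases hb : C (ZMod p) (Sum.elim (Sum.elim x fun _ => b) u)
  · rw [if_neg (not_not.2 hb)]
    have : IsEmpty {c : ZMod p // ¬ C (ZMod p) (Sum.elim (Sum.elim x fun _ => b) u) ∧
        D (ZMod p) (Sum.elim ![b, c] (Sum.elim x u))} := ⟨fun c => c.2.1 hb⟩
    exact Nat.card_of_isEmpty
  · rw [if_pos hb]
    exact Nat.card_congr (Equiv.subtypeEquivRight fun c => and_iff_right hb)

/-- the points in finite fibres, sorted by the first coordinate -/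
private theorem sort_Good {X : FR (Fin (n + 1) ⊕ ι)} {I : FR (ι ⊕ Unit)} (x : ι → ZMod p)
    (hI : ∀ b : ZMod p, ¬ I (ZMod p) (Sum.elim x fun _ => b) ↔
      (Fb (Pt X (AlgebraicClosure (ZMod p))
        fun i => algebraMap (ZMod p) (AlgebraicClosure (ZMod p)) (x i))
        (algebraMap (ZMod p) (AlgebraicClosure (ZMod p)) b)).Finite) :
    Nat.card {z : Fin (n + 1) → ZMod p // z ∈ Pt X (ZMod p) x ∧
      (Fb (Pt X (AlgebraicClosure (ZMod p))
        fun i => algebraMap (ZMod p) (AlgebraicClosure (ZMod p)) (x i))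
        (algebraMap (ZMod p) (AlgebraicClosure (ZMod p)) (z 0))).Finite} =
      ∑ b : ZMod p, Nat.card {t : Fin n → ZMod p //
        Y_Good X I (ZMod p) (Sum.elim (Sum.elim x fun _ => b) t)} := by
  classical
  have e : {z : Fin (n + 1) → ZMod p // z ∈ Pt X (ZMod p) x ∧
      (Fb (Pt X (AlgebraicClosure (ZMod p))
        fun i => algebraMap (ZMod p) (AlgebraicClosure (ZMod p)) (x i))
        (algebraMap (ZMod p) (AlgebraicClosure (ZMod p)) (z 0))).Finite} ≃
      Σ b : ZMod p, {t : Fin n → ZMod p //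
        Y_Good X I (ZMod p) (Sum.elim (Sum.elim x fun _ => b) t)} := by
    refine
      { toFun := fun z => ⟨z.1 0, fun i => z.1 i.succ, (hI _).2 z.2.2, ?_⟩
        invFun := fun q => ⟨Fin.cons q.1 q.2.1, q.2.2.2, (hI _).1 q.2.2.1⟩
        left_inv := ?_
        right_inv := ?_ }
    · have h1 : (Fin.cons (z.1 0) fun i => z.1 i.succ : Fin (n + 1) → ZMod p) = z.1 :=
        Fin.cons_self_tail z.1
      have h2 : X (ZMod p) (Sum.elim (Fin.cons (z.1 0) fun i => z.1 i.succ) x) := by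
        rw [h1]
        exact z.2.1
      exact h2
    · intro z
      exact Subtype.ext (Fin.cons_self_tail z.1)
    · intro q
      rfl
  rw [Nat.card_congr e, Nat.card_sigma]

end Fib

/-! ### the identity -/

section Main

variable {p : ℕ} [Fact p.Prime] {n : ℕ} {ι : Type}

/-- what is used of the relations for one prime -/
private structure Spec_Good (X : FR (Fin (n + 1) ⊕ ι)) (B : ℕ) (I : FR (ι ⊕ Unit))
    (C : FR ((ι ⊕ Unit) ⊕ Fin n)) (D : FR (Fin 2 ⊕ (ι ⊕ Fin n))) : Prop where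
  hX : PRD X
  hI : PRD I
  sI : ∀ (k K : Type) [Field k] [Field K] [IsAlgClosed K] (φ : k →+* K) (x : ι ⊕ Unit → k),
    (I k x ↔ {t : Fin n → K | P_Good X K (Sum.elim (fun i => φ (x i)) t)}.Infinite) ∧
    (¬ I k x → {t : Fin n → K | P_Good X K (Sum.elim (fun i => φ (x i)) t)}.ncard ≤ B)
  sC : ∀ (k K : Type) [Field k] [Field K] [IsAlgClosed K] (φ : k →+* K)
    (x : (ι ⊕ Unit) ⊕ Fin n → k), C k x ↔ ∃ t : Fin n ⊕ Fin n → K,
      C0_Good (Y_Good X I) K (Sum.elim (fun i => φ (x i)) t)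
  sD : ∀ (k K : Type) [Field k] [Field K] [IsAlgClosed K] (φ : k →+* K)
    (x : Fin 2 ⊕ (ι ⊕ Fin n) → k), D k x ↔ ∃ t : Fin n → K,
      D0_Good (Y_Good X I) K (Sum.elim (fun i => φ (x i)) t)

variable {X : FR (Fin (n + 1) ⊕ ι)} {B : ℕ} {I : FR (ι ⊕ Unit)}
  {C : FR ((ι ⊕ Unit) ⊕ Fin n)} {D : FR (Fin 2 ⊕ (ι ⊕ Fin n))}

private theorem cfin_Good (h : Spec_Good X B I C D) (x : ι → ZMod p) (b : ZMod p) :
    ¬ I (ZMod p) (Sum.elim x fun _ => b) ↔
      (Fb (Pt X (AlgebraicClosure (ZMod p))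
        fun i => algebraMap (ZMod p) (AlgebraicClosure (ZMod p)) (x i))
        (algebraMap (ZMod p) (AlgebraicClosure (ZMod p)) b)).Finite := by
  rw [(h.sI (ZMod p) _ (algebraMap (ZMod p) (AlgebraicClosure (ZMod p)))
    (Sum.elim x fun _ => b)).1, Set.not_infinite]
  rfl

/-- the fibre over the closure -/
private def F_Good (X : FR (Fin (n + 1) ⊕ ι)) (I : FR (ι ⊕ Unit)) (x : ι → ZMod p)
    (b : ZMod p) : Set (Fin n → AlgebraicClosure (ZMod p)) :=
  {t | Y_Good X I (AlgebraicClosure (ZMod p)) (Sum.elim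
    (fun i => algebraMap (ZMod p) (AlgebraicClosure (ZMod p))
      (Sum.elim x (fun _ : Unit => b) i)) t)}

private theorem F_fin_Good (h : Spec_Good X B I C D) (x : ι → ZMod p) (b : ZMod p) :
    (F_Good X I x b).Finite ∧ (F_Good X I x b).ncard ≤ B := by
  by_cases hb : I (ZMod p) (Sum.elim x fun _ => b)
  · have : F_Good X I x b = ∅ := by
      refine Set.eq_empty_of_forall_notMem fun t ht => ht.1 ?_
      exact (prd_hom h.hI (algebraMap (ZMod p) (AlgebraicClosure (ZMod p))) _).2 hb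
    rw [this]
    exact ⟨Set.finite_empty, by simp⟩
  · have h1 := h.sI (ZMod p) _ (algebraMap (ZMod p) (AlgebraicClosure (ZMod p)))
      (Sum.elim x fun _ => b)
    have h2 := Set.not_infinite.1 fun h3 => hb (h1.1.2 h3)
    have h4 : F_Good X I x b ⊆ {t : Fin n → AlgebraicClosure (ZMod p) |
        P_Good X (AlgebraicClosure (ZMod p)) (Sum.elim (fun i =>
          algebraMap (ZMod p) (AlgebraicClosure (ZMod p))
            (Sum.elim x (fun _ : Unit => b) i)) t)} := fun t ht => ht.2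
    exact ⟨h2.subset h4, (Set.ncard_le_ncard h4 h2).trans (h1.2 hb)⟩

private theorem coll_Good (h : Spec_Good X B I C D) (x : ι → ZMod p) (b : ZMod p)
    (u : Fin n → ZMod p) :
    C (ZMod p) (Sum.elim (Sum.elim x fun _ => b) u) ↔ ∃ t ∈ F_Good X I x b,
      ∃ t' ∈ F_Good X I x b, t ≠ t' ∧
        ∑ i, algebraMap (ZMod p) (AlgebraicClosure (ZMod p)) (u i) * t i =
          ∑ i, algebraMap (ZMod p) (AlgebraicClosure (ZMod p)) (u i) * t' i := by
  rw [h.sC (ZMod p) _ (algebraMap (ZMod p) (AlgebraicClosure (ZMod p)))]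
  constructor
  · rintro ⟨t, ⟨h1, h2⟩, h3, h4⟩
    refine ⟨fun i => t (Sum.inl i), h1, fun i => t (Sum.inr i), h2, fun h5 => h3 fun i _ =>
      congrFun h5 i, h4⟩
  · rintro ⟨t, ht, t', ht', h3, h4⟩
    exact ⟨Sum.elim t t', ⟨ht, ht'⟩, fun h5 => h3 (funext fun i => h5 i (mem_univ i)), h4⟩

private theorem few_Good (hn : 1 ≤ n) (h : Spec_Good X B I C D) (x : ι → ZMod p) :
    ∃ u : Fin n → ZMod p,
      Nat.card {b : ZMod p // C (ZMod p) (Sum.elim (Sum.elim x fun _ => b) u)} ≤ B ^ 2 := by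
  classical
  obtain ⟨u, hu⟩ := avg (algebraMap (ZMod p) (AlgebraicClosure (ZMod p))) hn
    (fun b => F_Good X I x b) (fun b => (F_fin_Good h x b).1) fun b => (F_fin_Good h x b).2
  refine ⟨u, le_trans (le_of_eq ?_) hu⟩
  rw [Nat.card_eq_fintype_card, Fintype.card_subtype]
  congr 1
  ext b
  simp only [mem_filter, mem_univ, true_and]
  exact coll_Good h x b u

open scoped Classical in
private theorem id_Good (h : Spec_Good X B I C D) (x : ι → ZMod p) (u : Fin n → ZMod p) :
    Nat.card {z : Fin (n + 1) → ZMod p // z ∈ Pt X (ZMod p) x ∧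
      (Fb (Pt X (AlgebraicClosure (ZMod p))
        fun i => algebraMap (ZMod p) (AlgebraicClosure (ZMod p)) (x i))
        (algebraMap (ZMod p) (AlgebraicClosure (ZMod p)) (z 0))).Finite} =
      Nat.card (Pt (Z_Good C D) (ZMod p) (Sum.elim x u)) +
      ∑ b : ZMod p with C (ZMod p) (Sum.elim (Sum.elim x fun _ => b) u),
        Nat.card {t : Fin n → ZMod p //
          Y_Good X I (ZMod p) (Sum.elim (Sum.elim x fun _ => b) t)} := by
  have hY : PRD (Y_Good X I) := Y_pr_Good h.hX h.hI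
  rw [sort_Good x (cfin_Good h x), plane_Good,
    ← Finset.sum_filter_add_sum_filter_not univ
      (fun b : ZMod p => C (ZMod p) (Sum.elim (Sum.elim x fun _ => b) u)), add_comm]
  congr 1
  refine Finset.sum_congr rfl fun b hb => ?_
  have hb' := (mem_filter.1 hb).2
  rw [fibre_Good hY (Sum.elim x fun _ => b) u fun t t' ht ht' hs => by
    by_contra hne
    exact hb' ((coll_Good h x b u).2 ⟨t, ht, t', ht', hne, hs⟩)]
  refine Nat.card_congr (Equiv.subtypeEquivRight fun c => ?_)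
  rw [h.sD (ZMod p) _ (algebraMap (ZMod p) (AlgebraicClosure (ZMod p)))]
  refine exists_congr fun t => and_congr (iff_of_eq (congrArg _ ?_)) ?_
  · funext j
    rcases j with (j | j) | j <;> rfl
  · exact Iff.rfl


private theorem yle_Good (h : Spec_Good X B I C D) (x : ι → ZMod p) (b : ZMod p) :
    Nat.card {t : Fin n → ZMod p //
      Y_Good X I (ZMod p) (Sum.elim (Sum.elim x fun _ => b) t)} ≤ B := by
  have hY : PRD (Y_Good X I) := Y_pr_Good h.hX h.hI
  obtain ⟨h1, h2⟩ := F_fin_Good h x b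
  have : Finite (F_Good X I x b) := h1
  have key : ∀ t : Fin n → ZMod p,
      Y_Good X I (ZMod p) (Sum.elim (Sum.elim x fun _ => b) t) →
      (fun i => algebraMap (ZMod p) (AlgebraicClosure (ZMod p)) (t i)) ∈ F_Good X I x b := by
    intro t ht
    change Y_Good X I _ _
    rw [elim_map_Good]
    exact (prd_hom hY _ _).2 ht
  refine le_trans (Nat.card_le_card_of_injective (fun t : {t : Fin n → ZMod p //
    Y_Good X I (ZMod p) (Sum.elim (Sum.elim x fun _ => b) t)} =>
      (⟨_, key t.1 t.2⟩ : F_Good X I x b)) ?_) h2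
  intro t t' e
  have e1 := congrArg Subtype.val e
  refine Subtype.ext (funext fun i => ?_)
  exact RingHom.injective (algebraMap (ZMod p) (AlgebraicClosure (ZMod p))) (congrFun e1 i)

end Main

/-! ### from the prime field to natural numbers -/

/-- the relation for natural numbers -/
private def R_Good {κ : Type} (P : FR κ) (p : ℕ) (a : κ → ℕ) : Prop :=
  ∃ h : p.Prime, haveI := Fact.mk h; P (ZMod p) (fun i => (a i : ZMod p))

private theorem R_iff_Good {κ : Type} (P : FR κ) (p : ℕ) [hp : Fact p.Prime] (a : κ → ℕ) :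
    R_Good P p a ↔ P (ZMod p) (fun i => (a i : ZMod p)) :=
  ⟨fun ⟨_, h⟩ => h, fun h => ⟨hp.out, h⟩⟩

private theorem R_delta_Good {κ : Type} [Finite κ] {P : FR κ} (hP : PRD P) {m : ℕ}
    {p : (Fin m → ℕ) → ℕ} {a : κ → (Fin m → ℕ) → ℕ} (hp : DFun m p) (ha : ∀ i, DFun m (a i)) :
    Delta0 m (fun v => R_Good P (p v) fun i => a i v) := by
  have := Fintype.ofFinite κ
  exact prd_delta' hP hp ha

private theorem sum_zmod_Good (p : ℕ) [Fact p.Prime] (f : ZMod p → ℕ) :
    ∑ b ∈ range p, f (b : ZMod p) = ∑ b : ZMod p, f b := by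
  refine Finset.sum_nbij' (fun b => (b : ZMod p)) ZMod.val (fun b _ => mem_univ _)
    (fun b _ => mem_range.2 (ZMod.val_lt b)) (fun b hb => ?_) (fun b _ => ?_) fun b _ => rfl
  · rw [ZMod.val_natCast, Nat.mod_eq_of_lt (mem_range.1 hb)]
  · exact ZMod.natCast_zmod_val b

open scoped Classical in
private theorem card_zmod_Good (p : ℕ) [Fact p.Prime] {l : ℕ} (S : (Fin l → ZMod p) → Prop) :
    #{t ∈ Fintype.piFinset fun _ : Fin l => range p | S fun i => (t i : ZMod p)} =
      Nat.card {t : Fin l → ZMod p // S t} := by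
  rw [Nat.card_eq_fintype_card, Fintype.card_subtype]
  refine Finset.card_nbij' (fun t i => (t i : ZMod p)) (fun t i => (t i).val) ?_ ?_ ?_ ?_
  · intro t ht
    simp only [coe_filter, Set.mem_ofPred_eq, mem_univ, true_and] at ht ⊢
    exact ht.2
  · intro t ht
    simp only [coe_filter, Set.mem_ofPred_eq, mem_univ, true_and] at ht ⊢
    refine ⟨Fintype.mem_piFinset.2 fun i => mem_range.2 (ZMod.val_lt _), ?_⟩
    simpa only [ZMod.natCast_zmod_val] using ht
  · intro t ht
    simp only [coe_filter, Set.mem_ofPred_eq] at ht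
    funext i
    change ZMod.val ((t i : ℕ) : ZMod p) = t i
    rw [ZMod.val_natCast, Nat.mod_eq_of_lt (mem_range.1 (Fintype.mem_piFinset.1 ht.1 i))]
  · intro t _
    funext i
    exact ZMod.natCast_zmod_val (t i)

section Def

variable {n : ℕ} {ι : Type}

open scoped Classical in
/-- the number of the points of the fibre over `b`, if it is at most `B` -/
private def g_Good (Y : FR ((ι ⊕ Unit) ⊕ Fin n)) (B p : ℕ) (a : ι → ℕ) (b : ℕ) : ℕ :=
  if #{t ∈ Fintype.piFinset fun _ : Fin n => range p |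
    R_Good Y p (Sum.elim (Sum.elim a fun _ => b) t)} ≤ B then
    #{t ∈ Fintype.piFinset fun _ : Fin n => range p |
      R_Good Y p (Sum.elim (Sum.elim a fun _ => b) t)} else 0

private theorem g_le_Good (Y : FR ((ι ⊕ Unit) ⊕ Fin n)) (B p : ℕ) (a : ι → ℕ) (b : ℕ) :
    g_Good Y B p a b ≤ B := by
  unfold g_Good
  split_ifs with h
  · exact h
  · exact Nat.zero_le _

private theorem g_dc_Good [Finite ι] {Y : FR ((ι ⊕ Unit) ⊕ Fin n)} (hY : PRD Y) (B : ℕ) {m : ℕ}
    {p b : (Fin m → ℕ) → ℕ} {a : ι → (Fin m → ℕ) → ℕ} (hp : DFun m p) (ha : ∀ i, DFun m (a i))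
    (hb : DFun m b) : DFun m (fun v => g_Good Y B (p v) (fun i => a i v) (b v)) := by
  refine cnt_few (l := n) B hp (S := fun t v =>
    R_Good Y (p v) (Sum.elim (Sum.elim (fun i => a i v) fun _ => b v) t)) ?_
  intro m' t v ht hv
  have h1 := R_delta_Good hY (p := fun w => p fun i => v i w)
    (a := Sum.elim (Sum.elim (fun i w => a i fun j => v j w) fun _ w => b fun j => v j w) t)
    (hp.comp hv) (by
      rintro ((i | i) | i)
      · exact (ha i).comp hv
      · exact hb.comp hv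
      · exact ht i)
  refine h1.of_iff fun w => iff_of_eq (congrArg (R_Good Y _) ?_)
  funext j
  rcases j with (j | j) | j <;> rfl

/-- the collision relation for natural numbers -/
private def RC_Good (C : FR ((ι ⊕ Unit) ⊕ Fin n)) (p : ℕ) (a : ι → ℕ) (u : Fin n → ℕ)
    (b : ℕ) : Prop := R_Good C p (Sum.elim (Sum.elim a fun _ => b) u)

open scoped Classical in
private def N_Good (C : FR ((ι ⊕ Unit) ⊕ Fin n)) (p : ℕ) (a : ι → ℕ) (u : Fin n → ℕ) : ℕ :=
  #{b ∈ range p | RC_Good C p a u b}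

open scoped Classical in
private def S_Good (C : FR ((ι ⊕ Unit) ⊕ Fin n)) (B p : ℕ) (a : ι → ℕ) (u : Fin n → ℕ)
    (g : ℕ → ℕ) : ℕ :=
  if #{b ∈ range p | RC_Good C p a u b} ≤ B ^ 2 then
    ∑ b ∈ range p with RC_Good C p a u b, g b else 0

private theorem RC_delta_Good [Finite ι] {C : FR ((ι ⊕ Unit) ⊕ Fin n)} (hC : PRD C) {m : ℕ}
    {p b : (Fin m → ℕ) → ℕ} {a : ι → (Fin m → ℕ) → ℕ} {u : Fin n → (Fin m → ℕ) → ℕ}
    (hp : DFun m p) (ha : ∀ i, DFun m (a i)) (hu : ∀ i, DFun m (u i)) (hb : DFun m b) :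
    Delta0 m (fun v => RC_Good C (p v) (fun i => a i v) (fun i => u i v) (b v)) := by
  have h1 := R_delta_Good hC (a := Sum.elim (Sum.elim a fun _ => b) u) hp (by
      rintro ((i | i) | i)
      · exact ha i
      · exact hb
      · exact hu i)
  refine h1.of_iff fun w => iff_of_eq (congrArg (R_Good C _) ?_)
  funext j
  rcases j with (j | j) | j <;> rfl

private theorem S_dc_Good [Finite ι] {C : FR ((ι ⊕ Unit) ⊕ Fin n)} (hC : PRD C) (B : ℕ) {m : ℕ}
    {p : (Fin m → ℕ) → ℕ} {a : ι → (Fin m → ℕ) → ℕ} {u : Fin n → (Fin m → ℕ) → ℕ}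
    (hp : DFun m p) (ha : ∀ i, DFun m (a i)) (hu : ∀ i, DFun m (u i))
    {g : ℕ → (Fin m → ℕ) → ℕ} (hg : DFun (m + 1) (fun w => g (w 0) fun i => w i.succ)) (G : ℕ)
    (hG : ∀ b v, g b v ≤ G) :
    DFun m (fun v => S_Good C B (p v) (fun i => a i v) (fun i => u i v) fun b => g b v) :=
  sum_few (B ^ 2) hp (DFun.const G) (S := fun b v =>
    RC_Good C (p v) (fun i => a i v) (fun i => u i v) b)
    (RC_delta_Good hC hp.weak (fun i => (ha i).weak) (fun i => (hu i).weak) (DFun.proj 0)) hg hG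

private theorem N_delta_Good [Finite ι] {C : FR ((ι ⊕ Unit) ⊕ Fin n)} (hC : PRD C) (B : ℕ)
    {m : ℕ} {p : (Fin m → ℕ) → ℕ} {a : ι → (Fin m → ℕ) → ℕ} {u : Fin n → (Fin m → ℕ) → ℕ}
    (hp : DFun m p) (ha : ∀ i, DFun m (a i)) (hu : ∀ i, DFun m (u i)) :
    Delta0 m (fun v => N_Good C (p v) (fun i => a i v) (fun i => u i v) ≤ B ^ 2) := by
  classical
  have h1 := S_dc_Good hC B hp ha hu (g := fun _ _ => 1) (DFun.const 1) 1 fun _ _ => le_rfl
  have h2 := Delta0.ballFun hp (P := fun b v => ¬ (b < p v ∧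
    RC_Good C (p v) (fun i => a i v) (fun i => u i v) b))
    (((Delta0.ltFun (DFun.proj 0) hp.weak).and
      (RC_delta_Good hC hp.weak (fun i => (ha i).weak) (fun i => (hu i).weak)
        (DFun.proj 0))).not)
  refine ((Delta0.eqFun h1 (DFun.const 0)).not.or h2).of_iff fun v => ?_
  unfold N_Good S_Good
  constructor
  · intro h3
    by_cases h4 : ∀ b, b ≤ p v → ¬ (b < p v ∧
        RC_Good C (p v) (fun i => a i v) (fun i => u i v) b)
    · exact Or.inr h4
    · left
      push Not at h4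
      obtain ⟨b, _, hb1, hb2⟩ := h4
      rw [if_pos h3, Finset.sum_const, smul_eq_mul, mul_one]
      exact Finset.card_ne_zero.2 ⟨b, mem_filter.2 ⟨mem_range.2 hb1, hb2⟩⟩
  · rintro (h3 | h3)
    · by_contra h4
      exact h3 (if_neg h4)
    · have h5 : #{b ∈ range (p v) | RC_Good C (p v) (fun i => a i v) (fun i => u i v) b} = 0 := by
        rw [Finset.card_eq_zero, Finset.filter_eq_empty_iff]
        intro b hb h6
        exact h3 b (mem_range.1 hb).le ⟨mem_range.1 hb, h6⟩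
      rw [h5]
      exact Nat.zero_le _


end Def

section Fin

variable {p : ℕ} [Fact p.Prime] {n : ℕ} {ι : Type} {X : FR (Fin (n + 1) ⊕ ι)} {B : ℕ}
  {I : FR (ι ⊕ Unit)} {C : FR ((ι ⊕ Unit) ⊕ Fin n)} {D : FR (Fin 2 ⊕ (ι ⊕ Fin n))}

private theorem cast_Good (a : ι → ℕ) (b : ℕ) (t : Fin n → ℕ) :
    (fun i => ((Sum.elim (Sum.elim a fun _ : Unit => b) t i : ℕ) : ZMod p)) =
      Sum.elim (Sum.elim (cst (ZMod p) a) fun _ => (b : ZMod p)) fun i => (t i : ZMod p) := by
  funext j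
  rcases j with (j | j) | j <;> rfl

private theorem g_eq_Good (h : Spec_Good X B I C D) (a : ι → ℕ) (b : ℕ) :
    g_Good (Y_Good X I) B p a b = Nat.card {t : Fin n → ZMod p //
      Y_Good X I (ZMod p) (Sum.elim (Sum.elim (cst (ZMod p) a) fun _ => (b : ZMod p)) t)} := by
  classical
  have h1 : #{t ∈ Fintype.piFinset fun _ : Fin n => range p |
      R_Good (Y_Good X I) p (Sum.elim (Sum.elim a fun _ => b) t)} =
      Nat.card {t : Fin n → ZMod p //
        Y_Good X I (ZMod p) (Sum.elim (Sum.elim (cst (ZMod p) a) fun _ => (b : ZMod p)) t)} := by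
    rw [← card_zmod_Good p (fun t : Fin n → ZMod p =>
      Y_Good X I (ZMod p) (Sum.elim (Sum.elim (cst (ZMod p) a) fun _ => (b : ZMod p)) t))]
    congr 1
    refine Finset.filter_congr fun t _ => ?_
    rw [R_iff_Good, cast_Good]
  unfold g_Good
  rw [if_pos (by rw [h1]; exact yle_Good h _ _), h1]

private theorem N_eq_Good (C : FR ((ι ⊕ Unit) ⊕ Fin n)) (a : ι → ℕ) (u : Fin n → ℕ) :
    N_Good C p a u = Nat.card {b : ZMod p // C (ZMod p) (Sum.elim
      (Sum.elim (cst (ZMod p) a) fun _ => b) fun i => (u i : ZMod p))} := by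
  classical
  unfold N_Good
  rw [Nat.card_eq_fintype_card, Fintype.card_subtype, Finset.card_filter, Finset.card_filter,
    ← sum_zmod_Good]
  refine Finset.sum_congr rfl fun b _ => ?_
  unfold RC_Good
  rw [R_iff_Good, cast_Good]

private theorem S_eq_Good (h : Spec_Good X B I C D) (a : ι → ℕ) (u : Fin n → ℕ)
    (hN : N_Good C p a u ≤ B ^ 2) :
    gN X p a = Nat.card (Pt (Z_Good C D) (ZMod p) (cst (ZMod p) (Sum.elim a u))) +
      S_Good C B p a u fun b => g_Good (Y_Good X I) B p a b := by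
  classical
  have hp : p.Prime := Fact.out
  have e1 : (fun i => algebraMap (ZMod p) (AlgebraicClosure (ZMod p)) (cst (ZMod p) a i)) =
      cst (AlgebraicClosure (ZMod p)) a := by
    funext i
    exact map_natCast _ _
  have e2 : (cst (ZMod p) (Sum.elim a u) : ι ⊕ Fin n → ZMod p) =
      Sum.elim (cst (ZMod p) a) fun i => (u i : ZMod p) := by
    funext j
    rcases j with j | j <;> rfl
  have h1 := id_Good h (cst (ZMod p) a) fun i => (u i : ZMod p)
  rw [e1] at h1
  unfold gN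
  rw [dif_pos hp, h1, e2]
  congr 1
  unfold S_Good
  have hN' : #{b ∈ range p | RC_Good C p a u b} ≤ B ^ 2 := hN
  rw [if_pos hN', Finset.sum_filter, Finset.sum_filter, ← sum_zmod_Good]
  refine Finset.sum_congr rfl fun b _ => ?_
  unfold RC_Good
  rw [R_iff_Good, cast_Good, g_eq_Good h]

private theorem ex_Good (hn : 1 ≤ n) (h : Spec_Good X B I C D) (a : ι → ℕ) :
    ∃ u : Fin n → ℕ, (∀ i, u i ≤ p) ∧ N_Good C p a u ≤ B ^ 2 := by
  obtain ⟨u, hu⟩ := few_Good hn h (cst (ZMod p) a)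
  refine ⟨fun i => (u i).val, fun i => (ZMod.val_lt _).le, ?_⟩
  rw [N_eq_Good]
  simpa only [ZMod.natCast_zmod_val] using hu

private theorem gN_le_Good (X : FR (Fin (n + 1) ⊕ ι)) (p : ℕ) (a : ι → ℕ) :
    gN X p a ≤ p ^ (n + 1) := by
  unfold gN
  split_ifs with h
  · have := Fact.mk h
    refine (Nat.card_le_card_of_injective Subtype.val Subtype.val_injective).trans ?_
    rw [Nat.card_eq_fintype_card, Fintype.card_fun, ZMod.card, Fintype.card_fin]
  · exact Nat.zero_le _

end Fin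

theorem good_dc {ι : Type} [Finite ι] {n : ℕ} (hn : 1 ≤ n) (hP : PlaneHyp)
    {X : FR (Fin (n + 1) ⊕ ι)} (hX : PRD X) : DC (gN X) := by
  classical
  obtain ⟨B, I, hI, sI⟩ := fib_unif (P_pr_Good hX)
  have hY := Y_pr_Good hX hI
  obtain ⟨C, hC, sC⟩ := qe (C0_pr_Good hY)
  obtain ⟨D, hD, sD⟩ := qe (D0_pr_Good hY)
  have h : Spec_Good X B I C D := ⟨hX, hI, sI, sC, sD⟩
  obtain ⟨N1, hN1, hN1'⟩ := hP (Z_pr_Good hC hD)
  intro m p a hp ha
  refine DFun.ofGraph (Pool.Agent.PTr.DFun.powConst hp (n + 1)) (fun v => gN_le_Good X _ _) ?_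
  have hex := Pool.Agent.PTr.Delta0.bexVec (D := n) (n := m + 1) hp.weak (P := fun u w =>
    N_Good C (p fun i => w i.succ) (fun i => a i fun j => w j.succ) u ≤ B ^ 2 ∧
    w 0 = N1 (p fun i => w i.succ) (Sum.elim (fun i => a i fun j => w j.succ) u) +
      S_Good C B (p fun i => w i.succ) (fun i => a i fun j => w j.succ) u fun b =>
        g_Good (Y_Good X I) B (p fun i => w i.succ) (fun i => a i fun j => w j.succ) b) (by
    intro m' u v hu hv
    have hp' : DFun m' (fun w => p fun i => v i.succ w) := hp.comp fun i => hv i.succ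
    have ha' : ∀ i, DFun m' (fun w => a i fun j => v j.succ w) :=
      fun i => (ha i).comp fun j => hv j.succ
    have d1 := N_delta_Good hC B hp' ha' hu
    have d2 := hN1 (a := Sum.elim (fun i w => a i fun j => v j.succ w) u) hp' (by
      rintro (i | i)
      · exact ha' i
      · exact hu i)
    have d3 := S_dc_Good hC B hp' ha' hu (g := fun b w => g_Good (Y_Good X I) B
      (p fun i => v i.succ w) (fun i => a i fun j => v j.succ w) b)
      (g_dc_Good hY B hp'.weak (fun i => (ha' i).weak) (DFun.proj 0)) B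
      fun b w => g_le_Good _ _ _ _ _
    refine (d1.and (Delta0.eqFun (hv 0) (d2.add d3))).of_iff fun w => ?_
    have e : (fun i => Sum.elim (fun i w => a i fun j => v j.succ w) u i w) =
        Sum.elim (fun i => a i fun j => v j.succ w) fun i => u i w := by
      funext j
      rcases j with j | j <;> rfl
    rw [e])
  have hpr := ECD.delta_prime hp.weak
  refine ((hpr.not.and (Delta0.eqFun (DFun.proj 0) (DFun.const 0))).or
    (hpr.and hex)).of_iff fun w => ?_
  by_cases hq : (p fun i => w i.succ).Prime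
  · have := Fact.mk hq
    constructor
    · intro h1
      obtain ⟨u, hu1, hu2⟩ := ex_Good (p := p fun i => w i.succ) hn h
        fun i => a i fun j => w j.succ
      refine Or.inr ⟨hq, u, hu1, hu2, ?_⟩
      rw [h1, S_eq_Good h _ _ hu2, hN1']
    · rintro (⟨h1, _⟩ | ⟨_, u, _, hu2, h3⟩)
      · exact absurd hq h1
      · rw [h3, S_eq_Good h _ _ hu2, hN1']
  · have e0 : gN X (p fun i => w i.succ) (fun i => a i fun j => w j.succ) = 0 := by
      unfold gN
      rw [dif_neg hq]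
    rw [e0]
    constructor
    · intro h1
      exact Or.inl ⟨hq, h1⟩
    · rintro (⟨_, h1⟩ | ⟨h1, _⟩)
      · exact h1
      · exact absurd h1 hq

end Pool.Agent.CvS
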