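import Pool.Agent.CvS.Defs
import Pool.Agent.PRc.Normal

/-!
# Package CvS-HomI: invariance under homomorphisms of fields

`prf_hom`: induction on `PRF F` (`map_add`, `map_mul`, `map_inv₀`, `map_intCast`; for `ite`:
`φ a = 0 ↔ a = 0`, `map_eq_zero`). `prd_hom`: apply it to the characteristic function (`1 ≠ 0`).
`prd_pat`: a relation is determined by the pattern of the vanishing polynomials: `PRc.normal1`
(`PRc/Normal`) for the characteristic function `F` gives `T`, `N`, `D` with
`F k x = N(ptn T x) / D(ptn T x)`, `D(..) ≠ 0`; so the relation holds iff the polynomial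
`N P - D P`, `P = ptn T x`, vanishes at `x`. Take as new test polynomials `T` and all the `N P - D P`, `P` a
pattern (`Fin τ ⊕ (Fin τ → Prop)`, finite, transport to `Fin`).
-/

set_option autoImplicit false

noncomputable section

namespace Pool.Agent.CvS

open Polynomial Pool.Agent.PRc Pool.Agent.Grz

variable {ι : Type}

theorem prf_hom {F : FF ι} (hF : PRF F) {k K : Type} [Field k] [Field K] (φ : k →+* K)
    (x : ι → k) : F K (fun i => φ (x i)) = φ (F k x) := by
  classical
  induction hF with
  | var i => rfl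
  | int z => simp
  | add _ _ h1 h2 => simp only [h1, h2, map_add]
  | mul _ _ h1 h2 => simp only [h1, h2, map_mul]
  | inv _ h1 => simp only [h1, map_inv₀]
  | ite _ _ _ h1 h2 h3 =>
    simp only [h1, h2, h3, map_eq_zero]
    split_ifs <;> rfl

theorem prd_hom {P : FR ι} (hP : PRD P) {k K : Type} [Field k] [Field K] (φ : k →+* K)
    (x : ι → k) : P K (fun i => φ (x i)) ↔ P k x := by
  classical
  have h := prf_hom hP φ x
  by_cases h1 : P K (fun i => φ (x i)) <;> by_cases h2 : P k x
  · simp [h1, h2]
  · simp [h1, h2] at h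
  · simp [h1, h2] at h
  · simp [h1, h2]

theorem prd_pat {P : FR ι} (hP : PRD P) : ∃ (τ : ℕ) (T : Fin τ → MvPolynomial ι ℤ)
    (R : (Fin τ → Prop) → Prop), ∀ (k : Type) [Field k] (x : ι → k),
      P k x ↔ R (fun a => MvPolynomial.aeval x (T a) = 0) := by
  classical
  obtain ⟨τ, T, N, D, H⟩ := normal1 hP
  obtain ⟨n, ⟨e⟩⟩ := Finite.exists_equiv_fin (Fin τ ⊕ (Fin τ → Prop))
  refine ⟨n, fun i => Sum.elim T (fun Q => N Q - D Q) (e.symm i),
    fun Q => Q (e (Sum.inr fun a => Q (e (Sum.inl a)))), fun k _ x => ?_⟩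
  simp only [Equiv.symm_apply_apply, Sum.elim_inr, map_sub]
  change P k x ↔
    MvPolynomial.aeval x (N (ptn T x)) - MvPolynomial.aeval x (D (ptn T x)) = 0
  obtain ⟨h2, h3⟩ := H k x
  rw [sub_eq_zero]
  by_cases h4 : P k x
  · simp only [h4, if_true, true_iff] at h3 ⊢
    exact ((eq_div_iff h2).1 h3).symm.trans (one_mul _)
  · simp only [h4, if_false, false_iff] at h3 ⊢
    intro h5
    rw [h5, div_self h2] at h3
    exact zero_ne_one h3

end Pool.Agent.CvS
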