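import Pool.Agent.CvS.Defs

/-!
# Package CvS-Rt: common roots in an algebraic closure are decidable

* `pol_fam`: for `T : MvPolynomial (ι ⊕ Unit) ℤ` the polynomial `tp T x` in the last variable is a family of
  polynomials in `PRP` (induction on `T`: `MvPolynomial.induction_on`, `PRP.add`, `PRP.mul`, `PRP.C`,
  `PRP.X`), and `eval t (map φ (tp T x)) = aeval (φ ∘ x, t) T` (`tp_eval`, induction or
  `MvPolynomial.aeval`/`eval₂` composition).
* `gcd_fam`: for finitely many families `G a` in `PRP` there is a family `g` in `PRP` which is a greatest common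
  divisor: `g` divides all `G a` and is a combination of them (induction over the finite set with
  `PRc.xg_pr`, `PRc.xg_spec` for `N` larger than the degrees).
* `rt_pr`: let `g` be the gcd of the `G a`, `a ∈ A` (a root of all `G a` in an extension is a root of `g` and
  conversely), `q = ∏_(a ∉ A) G a`. There is `t ∈ K` (algebraically closed) with `G a (t) = 0` for `a ∈ A` and
  `G a (t) ≠ 0` for `a ∉ A` iff (`g = 0` and `q ≠ 0`) or (`g ≠ 0` and `g` does not divide `q ^ D`), where
  `D` bounds the degree of `g`. (`K` is infinite. If `g ≠ 0` and every root of `g` in `K` is a root of `q`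
  then `g` divides `q ^ D` over `K`: `Polynomial.splits`, multiplicities at most `D`, so also over `k`
  (`Polynomial.map_dvd_map'`); conversely a common root `t` with `q(t) ≠ 0` is impossible if `g ∣ q ^ D`.)
  `PRD.zeroP`, `PRD.dvd`, `PRP.pow`.
-/

set_option autoImplicit false

noncomputable section

namespace Pool.Agent.CvS

open Polynomial Pool.Agent.PRc Pool.Agent.Grz

variable {ι : Type}

/-- the polynomial in the last variable -/
def tp {k : Type} [Field k] (T : MvPolynomial (ι ⊕ Unit) ℤ) (x : ι → k) : k[X] :=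
  MvPolynomial.aeval (Sum.elim (fun i => C (x i)) fun _ => X) T

theorem tp_pr (T : MvPolynomial (ι ⊕ Unit) ℤ) : PRP (fun k _ x => tp T x) := by
  induction T using MvPolynomial.induction_on with
  | C a =>
    refine (PRP.C (PRF.int a)).congr fun k _ x => ?_
    unfold tp
    rw [MvPolynomial.aeval_C]
    simp
  | add p q hp hq =>
    refine (hp.add hq).congr fun k _ x => ?_
    unfold tp
    rw [map_add]
  | mul_X p i hp =>
    rcases i with i | u
    · refine (hp.mul (PRP.C (PRF.var i))).congr fun k _ x => ?_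
      unfold tp
      rw [map_mul, MvPolynomial.aeval_X, Sum.elim_inl]
    · refine (hp.mul PRP.X).congr fun k _ x => ?_
      unfold tp
      rw [map_mul, MvPolynomial.aeval_X, Sum.elim_inr]

theorem tp_eval {k K : Type} [Field k] [Field K] (φ : k →+* K) (T : MvPolynomial (ι ⊕ Unit) ℤ)
    (x : ι → k) (t : K) : ((tp T x).map φ).eval t =
      MvPolynomial.aeval (Sum.elim (fun i => φ (x i)) fun _ => t) T := by
  induction T using MvPolynomial.induction_on with
  | C a =>
    unfold tp
    rw [MvPolynomial.aeval_C, MvPolynomial.aeval_C]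
    simp
  | add p q hp hq =>
    unfold tp at hp hq ⊢
    rw [map_add, map_add, Polynomial.map_add, Polynomial.eval_add, hp, hq]
  | mul_X p i hp =>
    unfold tp at hp ⊢
    rw [map_mul, map_mul, Polynomial.map_mul, Polynomial.eval_mul, hp, MvPolynomial.aeval_X,
      MvPolynomial.aeval_X]
    rcases i with i | u
    · rw [Sum.elim_inl, Sum.elim_inl, Polynomial.map_C, Polynomial.eval_C]
    · rw [Sum.elim_inr, Sum.elim_inr, Polynomial.map_X, Polynomial.eval_X]

theorem gcd_fam {α : Type} (A : Finset α) {G : α → FP ι} (hG : ∀ a, PRP (G a)) :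
    ∃ g : FP ι, PRP g ∧ ∀ (k : Type) [Field k] (x : ι → k), (∀ a ∈ A, g k x ∣ G a k x) ∧
      ∃ c : α → k[X], g k x = ∑ a ∈ A, c a * G a k x := by
  classical
  induction A using Finset.induction_on with
  | empty =>
    refine ⟨fun k _ x => 0, PRP.zero, fun k _ x => ⟨fun a ha => ?_, fun _ => 0, ?_⟩⟩
    · exact absurd ha (Finset.notMem_empty a)
    · rw [Finset.sum_empty]
  | insert b s hb ih =>
    obtain ⟨g, hg, hs⟩ := ih
    obtain ⟨D, hD⟩ := hg.1
    refine ⟨fun k _ x => (xg (D + 1) (G b k x) (g k x)).1, (xg_pr (D + 1) (hG b) hg).1,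
      fun k _ x => ?_⟩
    obtain ⟨e1, e2, e3⟩ := xg_spec (D + 1) (G b k x) (g k x)
      (Or.inr (Nat.lt_succ_of_le (hD k x)))
    obtain ⟨h1, c, h2⟩ := hs k x
    refine ⟨fun a ha => ?_, fun a => if a = b then (xg (D + 1) (G b k x) (g k x)).2.1 else
      (xg (D + 1) (G b k x) (g k x)).2.2 * c a, ?_⟩
    · rcases Finset.mem_insert.1 ha with rfl | ha
      · exact e2
      · exact e3.trans (h1 a ha)
    · rw [Finset.sum_insert hb]
      beta_reduce
      rw [if_pos rfl]
      have h3 : ∑ a ∈ s, (if a = b then (xg (D + 1) (G b k x) (g k x)).2.1 else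
          (xg (D + 1) (G b k x) (g k x)).2.2 * c a) * G a k x =
          (xg (D + 1) (G b k x) (g k x)).2.2 * g k x := by
        rw [h2, Finset.mul_sum]
        refine Finset.sum_congr rfl fun a ha => ?_
        have hne : a ≠ b := fun h => hb (h ▸ ha)
        rw [if_neg hne, mul_assoc]
      rw [h3]
      exact e1

private theorem prod_Rt {α : Type} (s : Finset α) {G : α → FP ι} (hG : ∀ a, PRP (G a)) :
    PRP (fun k _ x => ∏ a ∈ s, G a k x) := by
  classical
  induction s using Finset.induction_on with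
  | empty => exact PRP.one.congr fun k _ x => by rw [Finset.prod_empty]
  | insert a s ha ih =>
    exact ((hG a).mul ih).congr fun k _ x => by rw [Finset.prod_insert ha]

private theorem dvd_Rt {K : Type} [Field K] (q : K[X]) (s : Multiset K)
    (hs : ∀ r ∈ s, q.eval r = 0) : (s.map fun r => X - C r).prod ∣ q ^ Multiset.card s := by
  induction s using Multiset.induction_on with
  | empty => simp
  | cons a s ih =>
    rw [Multiset.map_cons, Multiset.prod_cons, Multiset.card_cons, pow_succ']
    exact mul_dvd_mul (dvd_iff_isRoot.2 (hs a (Multiset.mem_cons_self a s)))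
      (ih fun r hr => hs r (Multiset.mem_cons_of_mem hr))

private theorem core_Rt {k K : Type} [Field k] [Field K] [IsAlgClosed K] (φ : k →+* K)
    (g q : k[X]) (D : ℕ) (hD : g.natDegree ≤ D) :
    ((g = 0 ∧ ¬q = 0) ∨ (¬g = 0 ∧ ¬g ∣ q ^ D)) ↔
      ∃ t : K, (g.map φ).eval t = 0 ∧ (q.map φ).eval t ≠ 0 := by
  by_cases hg : g = 0
  · subst hg
    constructor
    · rintro (⟨-, hq⟩ | ⟨h, -⟩)
      · by_contra hcon
        push Not at hcon
        have h1 : q.map φ = 0 := by
          refine Polynomial.funext fun t => ?_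
          rw [Polynomial.eval_zero]
          exact hcon t (by simp)
        exact hq ((Polynomial.map_eq_zero φ).1 h1)
      · exact absurd rfl h
    · rintro ⟨t, -, ht⟩
      refine Or.inl ⟨rfl, ?_⟩
      rintro rfl
      exact ht (by simp)
  · have hg' : g.map φ ≠ 0 := (Polynomial.map_ne_zero_iff φ.injective).2 hg
    constructor
    · rintro (⟨h, -⟩ | ⟨-, hdvd⟩)
      · exact absurd h hg
      · by_contra hcon
        push Not at hcon
        refine hdvd ((Polynomial.map_dvd_map' φ).1 ?_)
        rw [Polynomial.map_pow]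
        have h1 : ∀ r ∈ (g.map φ).roots, (q.map φ).eval r = 0 := fun r hr =>
          hcon r ((Polynomial.mem_roots hg').1 hr)
        have h2 := dvd_Rt (q.map φ) (g.map φ).roots h1
        have h3 : g.map φ = C (g.map φ).leadingCoeff *
            ((g.map φ).roots.map fun r => X - C r).prod :=
          (IsAlgClosed.splits (g.map φ)).eq_prod_roots
        have h4 : Multiset.card (g.map φ).roots ≤ D := by
          refine (Polynomial.card_roots' _).trans ?_
          rw [Polynomial.natDegree_map]
          exact hD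
        have h5 : IsUnit (C (g.map φ).leadingCoeff) :=
          Polynomial.isUnit_C.2 (Polynomial.leadingCoeff_ne_zero.2 hg').isUnit
        rw [h3]
        exact (h5.mul_left_dvd).2 (h2.trans (pow_dvd_pow _ h4))
    · rintro ⟨t, ht1, ht2⟩
      refine Or.inr ⟨hg, fun hdvd => ?_⟩
      have h1 : g.map φ ∣ (q.map φ) ^ D := by
        rw [← Polynomial.map_pow]
        exact (Polynomial.map_dvd_map' φ).2 hdvd
      obtain ⟨c, hc⟩ := h1
      have h2 : ((q.map φ) ^ D).eval t = 0 := by
        rw [hc, Polynomial.eval_mul, ht1, zero_mul]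
      rw [Polynomial.eval_pow] at h2
      exact pow_ne_zero D ht2 h2

theorem rt_pr {α : Type} [Fintype α] (A : α → Prop) {G : α → FP ι} (hG : ∀ a, PRP (G a)) :
    ∃ Q : FR ι, PRD Q ∧ ∀ (k K : Type) [Field k] [Field K] [IsAlgClosed K] (φ : k →+* K)
      (x : ι → k), Q k x ↔ ∃ t : K, ∀ a, ((G a k x).map φ).eval t = 0 ↔ A a := by
  classical
  obtain ⟨g, hg, hs⟩ := gcd_fam (Finset.univ.filter A) hG
  obtain ⟨D, hD⟩ := hg.1
  have hq := prod_Rt (Finset.univ.filter fun a => ¬A a) hG
  refine ⟨fun k _ x => (g k x = 0 ∧ ¬(∏ a ∈ Finset.univ.filter fun a => ¬A a, G a k x) = 0) ∨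
    (¬g k x = 0 ∧ ¬g k x ∣ (∏ a ∈ Finset.univ.filter fun a => ¬A a, G a k x) ^ D),
    ((PRD.zeroP hg).and (PRD.zeroP hq).not).or
      ((PRD.zeroP hg).not.and (PRD.dvd hg (hq.pow D)).not), ?_⟩
  intro k K _ _ _ φ x
  refine (core_Rt φ (g k x) (∏ a ∈ Finset.univ.filter fun a => ¬A a, G a k x) D
    (hD k x)).trans ?_
  refine exists_congr fun t => ?_
  obtain ⟨h1, c, h2⟩ := hs k x
  constructor
  · rintro ⟨e1, e2⟩ a
    by_cases ha : A a
    · refine iff_of_true ?_ ha
      obtain ⟨d, hd⟩ := h1 a (Finset.mem_filter.2 ⟨Finset.mem_univ a, ha⟩)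
      rw [hd, Polynomial.map_mul, Polynomial.eval_mul, e1, zero_mul]
    · refine iff_of_false ?_ ha
      rw [Polynomial.map_prod, Polynomial.eval_prod] at e2
      exact Finset.prod_ne_zero_iff.1 e2 a (Finset.mem_filter.2 ⟨Finset.mem_univ a, ha⟩)
  · intro h
    refine ⟨?_, ?_⟩
    · rw [h2, Polynomial.map_sum, Polynomial.eval_finsetSum]
      refine Finset.sum_eq_zero fun a ha => ?_
      rw [Polynomial.map_mul, Polynomial.eval_mul, (h a).2 (Finset.mem_filter.1 ha).2, mul_zero]
    · rw [Polynomial.map_prod, Polynomial.eval_prod]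
      refine Finset.prod_ne_zero_iff.2 fun a ha h3 => (Finset.mem_filter.1 ha).2 ((h a).1 h3)

end Pool.Agent.CvS
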