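import Pool.Agent.CvS.HomI
import Pool.Agent.CvS.Rt

/-!
# Package CvS-QE: quantifier elimination over algebraically closed fields

* `qe1`: `prd_pat` for `P` gives `T`, `R`; `P K (φ x, t) ↔ R (pattern)`, and the pattern at `(φ x, t)` is
  `a ↦ ((tp (T a) x).map φ).eval t = 0` (`tp_eval`). So `∃ t, P K (φ x, t)` iff there is a pattern `A` with
  `R A` and `∃ t, ∀ a, (.. = 0 ↔ A a)`: the disjunction over the finitely many `A : Fin τ → Prop` with `R A` of the
  relations of `rt_pr` (`PRD.any`).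
* `qeN`: induction on `n` with `qe1`: `∃ t : Fin (n + 1) → K` is `∃ t₀, ∃ t : Fin n → K` (`Fin.cons`,
  `Fin.consEquiv`); the induction hypothesis is used for the field `K` itself (`φ = RingHom.id K`) with parameters
  `ι ⊕ Unit`.
* `qe`: transport along `Finite.equivFin`.
-/

set_option autoImplicit false

noncomputable section

namespace Pool.Agent.CvS

open Polynomial Pool.Agent.PRc Pool.Agent.Grz

variable {ι : Type}

theorem qe1 {P : FR (ι ⊕ Unit)} (hP : PRD P) : ∃ Q : FR ι, PRD Q ∧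
    ∀ (k K : Type) [Field k] [Field K] [IsAlgClosed K] (φ : k →+* K) (x : ι → k),
      Q k x ↔ ∃ t : K, P K (Sum.elim (fun i => φ (x i)) fun _ => t) := by
  classical
  obtain ⟨τ, T, R, hR⟩ := prd_pat hP
  have h1 : ∀ A : Fin τ → Prop, ∃ Q : FR ι, PRD Q ∧
      ∀ (k K : Type) [Field k] [Field K] [IsAlgClosed K] (φ : k →+* K) (x : ι → k),
        Q k x ↔ (R A ∧ ∃ t : K, ∀ a, ((tp (T a) x).map φ).eval t = 0 ↔ A a) := by
    intro A
    by_cases hA : R A
    · obtain ⟨Q, hQ, hq⟩ := rt_pr A (G := fun a k _ x => tp (T a) x) (fun a => tp_pr (T a))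
      refine ⟨Q, hQ, fun k K _ _ _ φ x => ?_⟩
      rw [hq k K φ x]
      exact ⟨fun h => ⟨hA, h⟩, fun h => h.2⟩
    · refine ⟨fun _ _ _ => False, PRD.false, fun k K _ _ _ φ x => ?_⟩
      exact ⟨fun h => h.elim, fun h => hA h.1⟩
  choose Q hQ hq using h1
  refine ⟨fun k _ x => ∃ A ∈ (Finset.univ : Finset (Fin τ → Prop)), Q A k x,
    PRD.any _ fun A _ => hQ A, fun k K _ _ _ φ x => ?_⟩
  constructor
  · rintro ⟨A, -, hA⟩
    obtain ⟨hRA, t, ht⟩ := (hq A k K φ x).mp hA
    refine ⟨t, (hR K _).mpr ?_⟩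
    have e : (fun a => MvPolynomial.aeval (Sum.elim (fun i => φ (x i)) fun _ => t) (T a) = 0) =
        A := by
      funext a
      rw [← tp_eval φ (T a) x t]
      exact propext (ht a)
    rw [e]
    exact hRA
  · rintro ⟨t, ht⟩
    refine ⟨fun a => MvPolynomial.aeval (Sum.elim (fun i => φ (x i)) fun _ => t) (T a) = 0,
      Finset.mem_univ _, (hq _ k K φ x).mpr ⟨(hR K _).mp ht, t, fun a => ?_⟩⟩
    rw [tp_eval φ (T a) x t]

theorem qeN {n : ℕ} {P : FR (ι ⊕ Fin n)} (hP : PRD P) : ∃ Q : FR ι, PRD Q ∧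
    ∀ (k K : Type) [Field k] [Field K] [IsAlgClosed K] (φ : k →+* K) (x : ι → k),
      Q k x ↔ ∃ t : Fin n → K, P K (Sum.elim (fun i => φ (x i)) t) := by
  induction n generalizing ι with
  | zero =>
    have h0 : PRD (ι := ι) (fun k _ x => P k (fun j =>
        (Sum.elim (fun i => (fun k _ x => x i : FF ι)) (fun i : Fin 0 => i.elim0) :
          ι ⊕ Fin 0 → FF ι) j k x)) :=
      hP.comp fun j => by
        rcases j with i | i
        · exact PRF.var i
        · exact i.elim0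
    refine ⟨_, h0, fun k K _ _ _ φ x => ?_⟩
    have h1 := prd_hom h0 φ x
    rw [← h1]
    constructor
    · intro h
      refine ⟨fun i => i.elim0, ?_⟩
      refine (iff_of_eq (congrArg (P K) ?_)).mp h
      funext j
      rcases j with i | i
      · rfl
      · exact i.elim0
    · rintro ⟨t, ht⟩
      refine (iff_of_eq (congrArg (P K) ?_)).mp ht
      funext j
      rcases j with i | i
      · rfl
      · exact i.elim0
  | succ n ih =>
    have h0 : PRD (ι := (ι ⊕ Unit) ⊕ Fin n) (fun k _ x => P k (fun j =>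
        (Sum.elim (fun i => (fun k _ x => x (Sum.inl (Sum.inl i)) : FF ((ι ⊕ Unit) ⊕ Fin n)))
          (fun i : Fin (n + 1) => Fin.cases
            (fun k _ x => x (Sum.inl (Sum.inr ())) : FF ((ι ⊕ Unit) ⊕ Fin n))
            (fun i : Fin n => (fun k _ x => x (Sum.inr i) : FF ((ι ⊕ Unit) ⊕ Fin n))) i) :
          ι ⊕ Fin (n + 1) → FF ((ι ⊕ Unit) ⊕ Fin n)) j k x)) :=
      hP.comp fun j => by
        rcases j with i | i
        · exact PRF.var _
        · refine Fin.cases ?_ (fun i => ?_) i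
          · exact PRF.var _
          · exact PRF.var _
    obtain ⟨Q1, hQ1, hq1⟩ := ih h0
    obtain ⟨Q, hQ, hq⟩ := qe1 hQ1
    refine ⟨Q, hQ, fun k K _ _ _ φ x => ?_⟩
    rw [hq k K φ x]
    constructor
    · rintro ⟨t0, h⟩
      obtain ⟨t, ht⟩ := (hq1 K K (RingHom.id K) _).mp h
      refine ⟨Fin.cons t0 t, ?_⟩
      refine (iff_of_eq (congrArg (P K) ?_)).mp ht
      funext j
      rcases j with i | i
      · rfl
      · refine Fin.cases ?_ (fun i => ?_) i
        · rfl
        · rfl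
    · rintro ⟨t, ht⟩
      refine ⟨t 0, (hq1 K K (RingHom.id K) _).mpr ⟨fun i => t i.succ, ?_⟩⟩
      refine (iff_of_eq (congrArg (P K) ?_)).mp ht
      funext j
      rcases j with i | i
      · rfl
      · refine Fin.cases ?_ (fun i => ?_) i
        · rfl
        · rfl

theorem qe {κ : Type} [Finite κ] {P : FR (ι ⊕ κ)} (hP : PRD P) : ∃ Q : FR ι, PRD Q ∧
    ∀ (k K : Type) [Field k] [Field K] [IsAlgClosed K] (φ : k →+* K) (x : ι → k),
      Q k x ↔ ∃ t : κ → K, P K (Sum.elim (fun i => φ (x i)) t) := by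
  obtain ⟨n, ⟨e⟩⟩ := Finite.exists_equiv_fin κ
  have h0 : PRD (ι := ι ⊕ Fin n) (fun k _ x => P k (fun j =>
      (Sum.elim (fun i => (fun k _ x => x (Sum.inl i) : FF (ι ⊕ Fin n)))
        (fun i => (fun k _ x => x (Sum.inr (e i)) : FF (ι ⊕ Fin n))) :
        ι ⊕ κ → FF (ι ⊕ Fin n)) j k x)) :=
    hP.comp fun j => by
      rcases j with i | i
      · exact PRF.var _
      · exact PRF.var _
  obtain ⟨Q, hQ, hq⟩ := qeN h0
  refine ⟨Q, hQ, fun k K _ _ _ φ x => ?_⟩
  rw [hq k K φ x]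
  constructor
  · rintro ⟨t, ht⟩
    refine ⟨fun i => t (e i), ?_⟩
    refine (iff_of_eq (congrArg (P K) ?_)).mp ht
    funext j
    rcases j with i | i <;> rfl
  · rintro ⟨t, ht⟩
    refine ⟨fun i => t (e.symm i), ?_⟩
    refine (iff_of_eq (congrArg (P K) ?_)).mp ht
    funext j
    rcases j with i | i
    · rfl
    · exact (congrArg t (e.symm_apply_apply i)).symm

end Pool.Agent.CvS
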