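import Pool.Agent.CvS.Good
import Pool.Agent.CvS.SOne

/-!
# Package CvS-Step: all sets of dimension at most one

* `ch_two`: `PlaneHyp` is stronger. `ch_one`: `R (z; x) = X ((z 0), x) ∧ z 1 = 0`. `ch_zero`: `R = X ∧ z 0 = 0 ∧ z 1 = 0`
  (`PRD.comp`, `PRD.eq`; bijections of the solution sets).
* `ch_step`, `n ≥ 1`: `good_dc` for the solutions in finite fibres; `s1_few` gives `C`, `Q`; `CH n` for
  `X' (t; x, b) = X (cons b t, x)` (parameters `ι ⊕ Unit`) gives `N'`. Put `N p a = gN X p a + ∑_(b < p, Q (x, b)) N' p (a, b)` if there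
  are at most `C` such `b`, and `gN X p a` otherwise (`sum_few` for the functions `min (N' ..) (p ^ n)`, `prd_delta'`). If
  `Dm1` holds over `K = AlgebraicClosure (ZMod p)`, there are at most `C` elements `b` of `K` with infinite fibre, so at most `C`
  such `b` in `ZMod p`; `dm1_fb` and `N' p (a, b)` = the number of the solutions in `ZMod p` with `z 0 = b`
  (at most `p ^ n`). The solutions are the ones in finite fibres and the ones over these `b`.
* `ch_all`: induction.
-/

set_option autoImplicit false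

noncomputable section

namespace Pool.Agent.CvS

open Polynomial Finset Pool.Agent.PRc Pool.Agent.Grz Pool.Agent.PTr

/-- few unknowns -/
private theorem low_Step (hP : PlaneHyp) {n : ℕ} (hn : n ≤ 2) : CH n := by
  intro ι _ X hX
  have h1 : PRD (ι := Fin 2 ⊕ ι) (fun k _ x => X k (Sum.elim
      (fun i : Fin n => x (Sum.inl (Fin.castLE hn i))) (fun i => x (Sum.inr i)))) := by
    refine (hX.comp (G := Sum.elim
      (fun i : Fin n => fun k _ (x : Fin 2 ⊕ ι → k) => x (Sum.inl (Fin.castLE hn i)))
      (fun i => fun k _ (x : Fin 2 ⊕ ι → k) => x (Sum.inr i))) ?_).congr fun k _ x => ?_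
    · rintro (i | i)
      · exact PRF.var _
      · exact PRF.var _
    · refine iff_of_eq (congrArg (X k) (funext fun j => ?_))
      rcases j with j | j <;> rfl
  have h2 : PRD (ι := Fin 2 ⊕ ι) (fun k _ x => ∀ j ∈ (Finset.univ : Finset (Fin 2)),
      (n ≤ (j : ℕ) → x (Sum.inl j) = 0)) := by
    refine PRD.all _ fun j _ => ?_
    by_cases hj : n ≤ (j : ℕ)
    · exact (PRD.eq (PRF.var (Sum.inl j)) PRF.zero).congr fun k _ x =>
        ⟨fun h => h hj, fun h _ => h⟩
    · exact PRD.true.congr fun k _ x => ⟨fun _ => trivial, fun _ h => absurd h hj⟩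
  obtain ⟨N, hN, hN'⟩ := hP (h1.and h2)
  refine ⟨N, hN, fun p _ a _ => ?_⟩
  rw [hN' p a]
  refine Nat.card_congr ⟨fun z => ⟨fun i => z.1 (Fin.castLE hn i), ?_⟩,
    fun t => ⟨fun j => if h : (j : ℕ) < n then t.1 ⟨j, h⟩ else 0, ?_, ?_⟩, ?_, ?_⟩
  · exact z.2.1
  · have h3 := t.2
    refine (iff_of_eq (congrArg (X (ZMod p)) (funext fun j => ?_))).1 h3
    rcases j with j | j
    · show t.1 j = if h : ((Fin.castLE hn j : Fin 2) : ℕ) < n then t.1 ⟨_, h⟩ else 0
      rw [dif_pos (show ((Fin.castLE hn j : Fin 2) : ℕ) < n from j.2)]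
      rfl
    · rfl
  · intro j _ hj
    exact dif_neg (not_lt.2 hj)
  · rintro ⟨z, hz⟩
    refine Subtype.ext (funext fun j => ?_)
    by_cases h : (j : ℕ) < n
    · exact dif_pos h
    · exact (dif_neg h).trans (hz.2 j (Finset.mem_univ j) (not_lt.1 h)).symm
  · rintro ⟨t, ht⟩
    refine Subtype.ext (funext fun j => ?_)
    exact dif_pos (show ((Fin.castLE hn j : Fin 2) : ℕ) < n from j.2)

theorem ch_zero (hP : PlaneHyp) : CH 0 := low_Step hP (by norm_num)

theorem ch_one (hP : PlaneHyp) : CH 1 := low_Step hP (by norm_num)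

/-- counting by the first coordinate -/
private theorem split_Step {n p : ℕ} [Fact p.Prime] (S : Set (Fin (n + 1) → ZMod p))
    (F : ZMod p → Prop) [DecidablePred F] :
    Nat.card S = Nat.card {z : Fin (n + 1) → ZMod p // z ∈ S ∧ ¬ F (z 0)} +
      ∑ b with F b, Nat.card (Fb S b) := by
  classical
  have h0 : (∑ b with F b, Nat.card (Fb S b)) =
      Nat.card {z : Fin (n + 1) → ZMod p // z ∈ S ∧ F (z 0)} := by
    have h1 : Nat.card (Σ b : {b : ZMod p // F b}, Fb S b.1) =
        ∑ b : {b : ZMod p // F b}, Nat.card (Fb S b.1) := Nat.card_sigma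
    have h2 : (∑ b : {b : ZMod p // F b}, Nat.card (Fb S b.1)) =
        ∑ b with F b, Nat.card (Fb S b) := by
      rw [Finset.sum_subtype (Finset.univ.filter F) (p := F)
        (fun b => by simp) fun b => Nat.card (Fb S b)]
    rw [← h2, ← h1]
    refine Nat.card_congr ⟨fun w => ⟨Fin.cons w.1.1 w.2.1, w.2.2, ?_⟩,
      fun z => ⟨⟨z.1 0, z.2.2⟩, ⟨fun i => z.1 i.succ, ?_⟩⟩, ?_, ?_⟩
    · rw [Fin.cons_zero]
      exact w.1.2
    · show (Fin.cons (z.1 0) fun i => z.1 i.succ) ∈ S
      rw [show (Fin.cons (z.1 0) fun i => z.1 i.succ : Fin (n + 1) → ZMod p) = z.1 from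
        Fin.cons_self_tail z.1]
      exact z.2.1
    · rintro ⟨⟨b, hb⟩, ⟨t, ht⟩⟩
      rfl
    · rintro ⟨z, hz⟩
      exact Subtype.ext (Fin.cons_self_tail z)
  rw [h0, ← Nat.card_sum]
  refine Nat.card_congr ⟨fun z => if h : F (z.1 0) then Sum.inr ⟨z.1, z.2, h⟩ else
    Sum.inl ⟨z.1, z.2, h⟩, Sum.elim (fun z => ⟨z.1, z.2.1⟩) (fun z => ⟨z.1, z.2.1⟩), ?_, ?_⟩
  · rintro ⟨z, hz⟩
    by_cases h : F (z 0)
    · show Sum.elim _ _ (dite _ _ _) = _
      rw [dif_pos h]
      rfl
    · show Sum.elim _ _ (dite _ _ _) = _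
      rw [dif_neg h]
      rfl
  · rintro (z | z)
    · exact dif_neg z.2.2
    · exact dif_pos z.2.2

private theorem range_Step {p : ℕ} [Fact p.Prime] (F : ZMod p → Prop) [DecidablePred F]
    (S : ℕ → Prop) [DecidablePred S] (hS : ∀ b, S b ↔ F b) (g : ZMod p → ℕ) :
    (∑ b ∈ Finset.range p with S b, g b) = ∑ b with F b, g b := by
  refine Finset.sum_nbij' (fun b => (b : ZMod p)) (fun b => b.val) ?_ ?_ ?_ ?_ ?_
  · intro b hb
    rw [Finset.mem_filter] at hb
    exact Finset.mem_filter.2 ⟨Finset.mem_univ _, (hS b).1 hb.2⟩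
  · intro b hb
    rw [Finset.mem_filter] at hb
    refine Finset.mem_filter.2 ⟨Finset.mem_range.2 (ZMod.val_lt b), (hS _).2 ?_⟩
    rw [ZMod.natCast_zmod_val]
    exact hb.2
  · intro b hb
    rw [Finset.mem_filter, Finset.mem_range] at hb
    exact ZMod.val_cast_of_lt hb.1
  · intro b _
    exact ZMod.natCast_zmod_val b
  · intro b _
    rfl

open scoped Classical in
theorem ch_step (hP : PlaneHyp) {n : ℕ} (hn : 1 ≤ n) (h : CH n) : CH (n + 1) := by
  intro ι _ X hX
  obtain ⟨C, Q, hQ, hC⟩ := s1_few hX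
  have hX' : PRD (ι := Fin n ⊕ (ι ⊕ Unit)) (fun k _ x => X k (Sum.elim
      (Fin.cons (x (Sum.inr (Sum.inr ()))) fun i => x (Sum.inl i))
      (fun i => x (Sum.inr (Sum.inl i))))) := by
    refine (hX.comp (G := Sum.elim
      (fun i : Fin (n + 1) => fun k _ (x : Fin n ⊕ (ι ⊕ Unit) → k) =>
        (Fin.cons (x (Sum.inr (Sum.inr ()))) fun i => x (Sum.inl i) : Fin (n + 1) → k) i)
      (fun i => fun k _ (x : Fin n ⊕ (ι ⊕ Unit) → k) => x (Sum.inr (Sum.inl i)))) ?_).congr
        fun k _ x => ?_
    · rintro (i | i)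
      · refine Fin.cases ?_ (fun j => ?_) i
        · exact PRF.var (Sum.inr (Sum.inr ()))
        · exact PRF.var (Sum.inl j)
      · exact PRF.var _
    · refine iff_of_eq (congrArg (X k) (funext fun j => ?_))
      rcases j with j | j <;> rfl
  obtain ⟨N', hN', hN2⟩ := h hX'
  let S : ℕ → (ι → ℕ) → ℕ → Prop := fun p a b => ∃ h : p.Prime, haveI := Fact.mk h;
    Q (ZMod p) (Sum.elim (fun i => (a i : ZMod p)) fun _ => (b : ZMod p))
  refine ⟨fun p a => gN X p a + if #{b ∈ Finset.range p | S p a b} ≤ C then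
    ∑ b ∈ Finset.range p with S p a b, min (N' p (Sum.elim a fun _ => b)) (p ^ n) else 0,
    ?_, ?_⟩
  · intro m p a hp ha
    refine (good_dc hn hP hX hp ha).add ?_
    have hS1 : Delta0 (m + 1) (fun w => (fun b v => S (p v) (fun i => a i v) b) (w 0)
        fun i => w i.succ) := by
      have := Fintype.ofFinite (ι ⊕ Unit)
      have h3 := prd_delta' (n := m + 1) hQ (p := fun w => p fun i => w i.succ)
        (a := Sum.elim (fun i w => a i fun i => w i.succ) (fun _ w => w 0)) hp.weak (by
          rintro (i | i)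
          · exact (ha i).weak
          · exact DFun.proj 0)
      refine h3.of_iff fun w => exists_congr fun hp1 => ?_
      have := Fact.mk hp1
      refine iff_of_eq (congrArg (Q _) (funext fun j => ?_))
      rcases j with j | j <;> rfl
    have hg1 : DFun (m + 1) (fun w => (fun b v => min (N' (p v)
        (Sum.elim (fun i => a i v) fun _ => b)) (p v ^ n)) (w 0) fun i => w i.succ) := by
      refine DFun.min ?_ (PTr.DFun.powConst hp.weak n)
      have h3 := hN' (m := m + 1) (p := fun w => p fun i => w i.succ)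
        (a := Sum.elim (fun i w => a i fun i => w i.succ) (fun _ w => w 0)) hp.weak (by
          rintro (i | i)
          · exact (ha i).weak
          · exact DFun.proj 0)
      have e : (fun w : Fin (m + 1) → ℕ => N' (p fun i => w i.succ)
          (Sum.elim (fun i => a i fun i => w i.succ) fun _ => w 0)) =
          fun w => N' (p fun i => w i.succ) fun i =>
            (Sum.elim (fun i w => a i fun i => w i.succ) (fun _ w => w 0) :
              ι ⊕ Unit → (Fin (m + 1) → ℕ) → ℕ) i w := by
        funext w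
        refine congrArg (N' _) (funext fun j => ?_)
        rcases j with j | j <;> rfl
      rw [e]
      exact h3
    have h6 := sum_few C (G := fun v => p v ^ n) hp (PTr.DFun.powConst hp n)
      (S := fun b v => S (p v) (fun i => a i v) b) hS1
      (g := fun b v => min (N' (p v) (Sum.elim (fun i => a i v) fun _ => b)) (p v ^ n)) hg1
      fun b v => min_le_right _ _
    convert h6
  · intro p hp a hD
    have e1 : (fun i => algebraMap (ZMod p) (AlgebraicClosure (ZMod p)) (cst (ZMod p) a i)) =
        cst (AlgebraicClosure (ZMod p)) a := funext fun i => map_natCast _ _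
    have h1 := hC (ZMod p) (AlgebraicClosure (ZMod p))
      (algebraMap (ZMod p) (AlgebraicClosure (ZMod p))) (cst (ZMod p) a)
    rw [e1] at h1
    obtain ⟨h2, h3⟩ := h1
    obtain ⟨h4, h5⟩ := h3 hD
    set F : ZMod p → Prop := fun b => (Fb (Pt X (AlgebraicClosure (ZMod p))
      (cst (AlgebraicClosure (ZMod p)) a))
        (algebraMap (ZMod p) (AlgebraicClosure (ZMod p)) b)).Infinite with hF
    have hSF : ∀ b : ℕ, S p a b ↔ F b := by
      intro b
      constructor
      · rintro ⟨_, h6⟩
        exact (h2 b).1 h6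
      · intro h6
        exact ⟨hp.out, (h2 b).2 h6⟩
    have hcard : #{b ∈ Finset.range p | S p a b} ≤ C := by
      have h6 : #{b ∈ Finset.range p | S p a b} = #{b : ZMod p | F b} := by
        rw [Finset.card_eq_sum_ones, Finset.card_eq_sum_ones]
        exact range_Step F (S p a) hSF fun _ => 1
      rw [h6]
      refine le_trans ?_ h5
      rw [← Set.ncard_coe_finset]
      refine Set.ncard_le_ncard_of_injOn
        (algebraMap (ZMod p) (AlgebraicClosure (ZMod p))) ?_ ?_ h4
      · intro b hb
        exact (Finset.mem_filter.1 hb).2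
      · exact (algebraMap (ZMod p) (AlgebraicClosure (ZMod p))).injective.injOn
    show gN X p a + _ = _
    rw [if_pos hcard, split_Step (Pt X (ZMod p) (cst (ZMod p) a)) F]
    congr 1
    · unfold gN
      rw [dif_pos hp.out]
      refine Nat.card_congr (Equiv.subtypeEquivRight fun z => and_congr_right fun _ => ?_)
      exact Set.not_infinite.symm
    · rw [← range_Step F (S p a) hSF fun b => Nat.card (Fb (Pt X (ZMod p) (cst (ZMod p) a)) b)]
      refine Finset.sum_congr rfl fun b hb => ?_
      have e2 : Fb (Pt X (ZMod p) (cst (ZMod p) a)) (b : ZMod p) =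
          Pt (fun k _ x => X k (Sum.elim
            (Fin.cons (x (Sum.inr (Sum.inr ()))) fun i => x (Sum.inl i))
            (fun i => x (Sum.inr (Sum.inl i))))) (ZMod p)
            (cst (ZMod p) (Sum.elim a fun _ => b)) := rfl
      have e3 : Fb (Pt X (AlgebraicClosure (ZMod p)) (cst (AlgebraicClosure (ZMod p)) a))
          (b : AlgebraicClosure (ZMod p)) =
          Pt (fun k _ x => X k (Sum.elim
            (Fin.cons (x (Sum.inr (Sum.inr ()))) fun i => x (Sum.inl i))
            (fun i => x (Sum.inr (Sum.inl i))))) (AlgebraicClosure (ZMod p))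
            (cst (AlgebraicClosure (ZMod p)) (Sum.elim a fun _ => b)) := rfl
      have h7 := hN2 p (Sum.elim a fun _ => b) (by
        rw [← e3]
        exact dm1_fb hD _)
      rw [h7, ← e2]
      refine min_eq_left ?_
      have h8 : Nat.card (Fb (Pt X (ZMod p) (cst (ZMod p) a)) (b : ZMod p)) ≤
          Nat.card (Fin n → ZMod p) := Nat.card_le_card_of_injective Subtype.val
            Subtype.val_injective
      rwa [Nat.card_fun, Nat.card_zmod, Nat.card_fin] at h8

theorem ch_all (hP : PlaneHyp) (n : ℕ) : CH n := by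
  induction n with
  | zero => exact ch_zero hP
  | succ n ih =>
    rcases Nat.eq_zero_or_pos n with h | h
    · subst h
      exact ch_one hP
    · exact ch_step hP h ih

end Pool.Agent.CvS
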